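import Mathlib

/-!
# Shuffle squares: definitions and the upper bound
-/

set_option autoImplicit false

namespace Pool.Agent.R123.Shuf

variable {α : Type}

/-- `w` is an interleaving of the words `u` and `v` -/
inductive Interleave : List α → List α → List α → Prop
  | nil : Interleave [] [] []
  | left {u v w : List α} (a : α) : Interleave u v w → Interleave (a :: u) v (a :: w)
  | right {u v w : List α} (a : α) : Interleave u v w → Interleave u (a :: v) (a :: w)

/-- a shuffle square is an interleaving of two copies of one word -/
def ShuffleSquare (w : List α) : Prop := ∃ u, Interleave u u w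

theorem Interleave.append {u v w u' v' w' : List α} (h : Interleave u v w)
    (h' : Interleave u' v' w') : Interleave (u ++ u') (v ++ v') (w ++ w') := by
  induction h with
  | nil => exact h'
  | left a _ ih => exact ih.left a
  | right a _ ih => exact ih.right a

theorem Interleave.symm {u v w : List α} (h : Interleave u v w) : Interleave v u w := by
  induction h with
  | nil => exact Interleave.nil
  | left a _ ih => exact ih.right a
  | right a _ ih => exact ih.left a

theorem Interleave.length {u v w : List α} (h : Interleave u v w) :
    w.length = u.length + v.length := by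
  induction h with
  | nil => rfl
  | left a _ ih => simp only [List.length_cons, ih]; omega
  | right a _ ih => simp only [List.length_cons, ih]; omega

theorem ShuffleSquare.append {w w' : List α} (h : ShuffleSquare w) (h' : ShuffleSquare w') :
    ShuffleSquare (w ++ w') := by
  obtain ⟨u, hu⟩ := h
  obtain ⟨u', hu'⟩ := h'
  exact ⟨u ++ u', hu.append hu'⟩

/-- the shuffle squares of length `2 n` over `k` letters -/
def S (k n : ℕ) : Set (List (Fin k)) := {w | w.length = 2 * n ∧ ShuffleSquare w}

theorem finite_S (k n : ℕ) : (S k n).Finite :=
  (List.finite_length_eq (Fin k) (2 * n)).subset fun _ h => h.1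

/-! ## Reading a shuffle square with a queue -/

/-- the word can be read such that every letter is either put at the end of the queue or deleted
from its front, starting with the queue `q` and ending with the empty queue -/
def Acc0 : List α → List α → Prop
  | q, [] => q = []
  | q, a :: w => Acc0 (q ++ [a]) w ∨ ∃ q', q = a :: q' ∧ Acc0 q' w

/-- the same with the condition that a letter is never put to the queue and the same letter deleted
at the next step, if the queue was not empty before; `b` says that the next deletion is not allowed -/
def Acc : Prop → List α → List α → Prop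
  | _, q, [] => q = []
  | b, q, a :: w => Acc (∃ q', q = a :: q') (q ++ [a]) w ∨ (¬ b ∧ ∃ q', q = a :: q' ∧ Acc False q' w)

theorem acc_false {b : Prop} {q w : List α} (h : Acc b q w) : Acc False q w := by
  cases w with
  | nil => exact h
  | cons a w =>
    rcases h with h | ⟨_, h⟩
    · exact Or.inl h
    · exact Or.inr ⟨id, h⟩

theorem acc_of_acc0 (w : List α) : ∀ q : List α, (Acc0 q w → Acc False q w) ∧
    (Acc0 q w → (¬ ∃ a q' w', q = a :: q' ∧ w = a :: w' ∧ Acc0 q' w') → Acc True q w) := by
  induction w with
  | nil => exact fun q => ⟨fun h => h, fun h _ => h⟩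
  | cons a w ih =>
    intro q
    have h2 : Acc0 q (a :: w) →
        (¬ ∃ a' q' w', q = a' :: q' ∧ a :: w = a' :: w' ∧ Acc0 q' w') → Acc True q (a :: w) := by
      intro h hno
      have hpush : Acc0 (q ++ [a]) w := by
        rcases h with h | ⟨q', hq, h⟩
        · exact h
        · exact absurd ⟨a, q', w, hq, rfl, h⟩ hno
      left
      by_cases hb : ∃ q', q = a :: q'
      · obtain ⟨q', rfl⟩ := hb
        have h3 : Acc True (a :: q' ++ [a]) w := by
          apply (ih _).2 hpush
          rintro ⟨a', q'', w', hq, rfl, h4⟩
          apply hno
          rw [List.cons_append, List.cons.injEq] at hq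
          obtain ⟨rfl, rfl⟩ := hq
          exact ⟨a, q', _, rfl, rfl, Or.inl h4⟩
        have h4 : (∃ q'', a :: q' = a :: q'') = True := by simp
        rw [h4]
        exact h3
      · have h4 : (∃ q', q = a :: q') = False := by simpa using hb
        rw [h4]
        exact (ih _).1 hpush
    refine ⟨fun h => ?_, h2⟩
    by_cases hyes : ∃ a' q' w', q = a' :: q' ∧ a :: w = a' :: w' ∧ Acc0 q' w'
    · obtain ⟨a', q', w', rfl, hw, h3⟩ := hyes
      rw [List.cons.injEq] at hw
      obtain ⟨rfl, rfl⟩ := hw
      exact Or.inr ⟨id, q', rfl, (ih _).1 h3⟩
    · exact acc_false (h2 h hyes)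

theorem acc0_of_interleave (w : List α) : ∀ q l : List α, Interleave l (q ++ l) w → Acc0 q w := by
  induction w with
  | nil =>
    intro q l h
    cases h' : q with
    | nil => rfl
    | cons a q =>
      rw [h'] at h
      cases h
  | cons a w ih =>
    intro q l h
    generalize hr : q ++ l = r at h
    cases h with
    | @left u _ _ _ h =>
      left
      apply ih (q ++ [a]) u
      rw [← hr] at h
      simpa using h
    | @right _ v _ _ h1 =>
      cases q with
      | nil =>
        left
        simp only [List.nil_append] at hr ⊢
        subst hr
        exact ih [a] v (h1.symm)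
      | cons c q =>
        rw [List.cons_append, List.cons.injEq] at hr
        obtain ⟨rfl, rfl⟩ := hr
        exact Or.inr ⟨q, rfl, ih q l h1⟩

theorem ShuffleSquare.acc {w : List α} (h : ShuffleSquare w) : Acc False [] w := by
  obtain ⟨u, hu⟩ := h
  exact (acc_of_acc0 w []).1 (acc0_of_interleave w [] u (by simpa using hu))

end Pool.Agent.R123.Shuf
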