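import Pool.Agent.R123.Shuf.Good
import Pool.Agent.R123.Shuf.Basic

/-!
# Parses given by 0-1-sequences, and their words
-/

set_option autoImplicit false

namespace Pool.Agent.R123.Shuf

/-- the sequence `β` of openings (`true`) and closings (`false`) is a Dyck word of semilength `M`,
continued to an infinite sequence -/
structure Balanced (β : ℕ → Bool) (M : ℕ) : Prop where
  inf_t : {p | β p = true}.Infinite
  inf_f : {p | β p = false}.Infinite
  dyck : ∀ p, Nat.count (fun q => β q = false) p ≤ Nat.count (fun q => β q = true) p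
  ct : Nat.count (fun q => β q = true) (2 * M) = M
  cf : Nat.count (fun q => β q = false) (2 * M) = M

/-- there is a closing among any `R + 1` consecutive places -/
def RunOK (β : ℕ → Bool) (M R : ℕ) : Prop :=
  ∀ p, p + R < 2 * M → ∃ q, p ≤ q ∧ q ≤ p + R ∧ β q = false

/-- the parse -/
noncomputable def toParse (β : ℕ → Bool) (M : ℕ) (h : Balanced β M) : Parse where
  o := Nat.nth (fun q => β q = true)
  c := Nat.nth (fun q => β q = false)
  o_mono := Nat.nth_strictMono h.inf_t
  c_mono := Nat.nth_strictMono h.inf_f
  lt := by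
    intro j
    apply Nat.nth_lt_of_lt_count
    have h1 := h.dyck (Nat.nth (fun q => β q = false) j + 1)
    have h2 : β (Nat.nth (fun q => β q = false) j) = false := Nat.nth_mem_of_infinite h.inf_f j
    rw [Nat.count_succ, Nat.count_succ, Nat.count_nth_of_infinite h.inf_f, if_pos h2, if_neg] at h1
    · omega
    · rw [h2]; simp
  disj := by
    intro i j hij
    have h1 : β (Nat.nth (fun q => β q = true) i) = true := Nat.nth_mem_of_infinite h.inf_t i
    have h2 : β (Nat.nth (fun q => β q = false) j) = false := Nat.nth_mem_of_infinite h.inf_f j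
    rw [hij, h2] at h1
    cases h1
  cover := by
    intro p
    cases hp : β p
    · right
      exact ⟨_, (Nat.nth_count (p := fun q => β q = false) hp).symm⟩
    · left
      exact ⟨_, (Nat.nth_count (p := fun q => β q = true) hp).symm⟩

section

variable {β : ℕ → Bool} {M : ℕ} (h : Balanced β M)

theorem o_lt (j : ℕ) : (toParse β M h).o j < 2 * M ↔ j < M := by
  have := Nat.lt_nth_iff_count_lt h.inf_t (a := j) (b := 2 * M)
  constructor
  · intro h1
    by_contra hcon
    have h2 : Nat.nth (fun q => β q = true) j < 2 * M := h1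
    have h3 := Nat.count_monotone (fun q => β q = true) (show Nat.nth (fun q => β q = true) j + 1 ≤ 2 * M from h2)
    rw [Nat.count_succ, Nat.count_nth_of_infinite h.inf_t,
      if_pos (Nat.nth_mem_of_infinite h.inf_t j), h.ct] at h3
    omega
  · intro h1
    apply Nat.nth_lt_of_lt_count
    rw [h.ct]
    exact h1

theorem c_lt (j : ℕ) : (toParse β M h).c j < 2 * M ↔ j < M := by
  constructor
  · intro h1
    have h2 : Nat.nth (fun q => β q = false) j < 2 * M := h1
    have h3 := Nat.count_monotone (fun q => β q = false) (show Nat.nth (fun q => β q = false) j + 1 ≤ 2 * M from h2)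
    rw [Nat.count_succ, Nat.count_nth_of_infinite h.inf_f,
      if_pos (Nat.nth_mem_of_infinite h.inf_f j), h.cf] at h3
    omega
  · intro h1
    apply Nat.nth_lt_of_lt_count
    rw [h.cf]
    exact h1

theorem o_iff (p : ℕ) : (∃ j, p = (toParse β M h).o j) ↔ β p = true := by
  constructor
  · rintro ⟨j, rfl⟩
    exact Nat.nth_mem_of_infinite h.inf_t j
  · intro hp
    exact ⟨_, (Nat.nth_count (p := fun q => β q = true) hp).symm⟩

theorem c_iff (p : ℕ) : (∃ j, p = (toParse β M h).c j) ↔ β p = false := by
  constructor
  · rintro ⟨j, rfl⟩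
    exact Nat.nth_mem_of_infinite h.inf_f j
  · intro hp
    exact ⟨_, (Nat.nth_count (p := fun q => β q = false) hp).symm⟩

theorem gap {R : ℕ} (hr : RunOK β M R) (j : ℕ) (hj : j + 1 < M) :
    (toParse β M h).c (j + 1) ≤ (toParse β M h).c j + R + 1 := by
  by_contra hcon
  have h1 := (c_lt h (j + 1)).2 hj
  obtain ⟨q, hq1, hq2, hq3⟩ := hr ((toParse β M h).c j + 1) (by omega)
  obtain ⟨a, ha⟩ := (c_iff h q).2 hq3
  have h2 : j < a := (toParse β M h).c_mono.lt_iff_lt.1 (by omega)
  have h3 : a < j + 1 := (toParse β M h).c_mono.lt_iff_lt.1 (by omega)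
  omega

theorem gap_zero {R : ℕ} (hr : RunOK β M R) (hM : 0 < M) : (toParse β M h).c 0 ≤ R := by
  by_contra hcon
  have h1 := (c_lt h 0).2 hM
  obtain ⟨q, hq1, hq2, hq3⟩ := hr 0 (by omega)
  obtain ⟨a, ha⟩ := (c_iff h q).2 hq3
  have h3 : a < 0 := (toParse β M h).c_mono.lt_iff_lt.1 (by omega)
  omega

end

/-- the number of a place among the openings or among the closings -/
def idx (β : ℕ → Bool) (p : ℕ) : ℕ := Nat.count (fun q => β q = β p) p

/-- the letter at the place `p` -/
def wd {α : Type} (β : ℕ → Bool) (X : ℕ → α) (p : ℕ) : α := X (idx β p)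

theorem interleave_wd {α : Type} (β : ℕ → Bool) (X : ℕ → α) (N : ℕ) :
    Interleave ((List.range (Nat.count (fun q => β q = true) N)).map X)
      ((List.range (Nat.count (fun q => β q = false) N)).map X)
      ((List.range N).map (wd β X)) := by
  induction N with
  | zero => exact Interleave.nil
  | succ N ih =>
    rw [List.range_succ, List.map_append, Nat.count_succ, Nat.count_succ]
    cases hN : β N
    · have h1 : wd β X N = X (Nat.count (fun q => β q = false) N) := by
        unfold wd idx
        rw [hN]
      rw [if_neg (by simp), if_pos rfl, add_zero, List.range_succ, List.map_append]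
      have h2 : Interleave ([] : List α) ([Nat.count (fun q => β q = false) N].map X)
          ([N].map (wd β X)) := by
        simp only [List.map_cons, List.map_nil, h1]
        exact Interleave.nil.right _
      have h3 := ih.append h2
      rwa [List.append_nil] at h3
    · have h1 : wd β X N = X (Nat.count (fun q => β q = true) N) := by
        unfold wd idx
        rw [hN]
      rw [if_pos rfl, if_neg (by simp), add_zero, List.range_succ, List.map_append]
      have h2 : Interleave ([Nat.count (fun q => β q = true) N].map X) ([] : List α)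
          ([N].map (wd β X)) := by
        simp only [List.map_cons, List.map_nil, h1]
        exact Interleave.nil.left _
      have h3 := ih.append h2
      rwa [List.append_nil] at h3

theorem mem_S {k M : ℕ} {β : ℕ → Bool} (h : Balanced β M) (X : ℕ → Fin k) :
    (List.range (2 * M)).map (wd β X) ∈ S k M := by
  refine ⟨by simp, (List.range M).map X, ?_⟩
  have := interleave_wd β X (2 * M)
  rwa [h.ct, h.cf] at this

theorem wd_o {α : Type} {β : ℕ → Bool} {M : ℕ} (h : Balanced β M) (X : ℕ → α) (j : ℕ) :
    wd β X ((toParse β M h).o j) = X j := by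
  have h1 : β (Nat.nth (fun q => β q = true) j) = true := Nat.nth_mem_of_infinite h.inf_t j
  change X (Nat.count (fun q => β q = β (Nat.nth (fun q => β q = true) j))
    (Nat.nth (fun q => β q = true) j)) = X j
  rw [h1, Nat.count_nth_of_infinite h.inf_t]

theorem wd_c {α : Type} {β : ℕ → Bool} {M : ℕ} (h : Balanced β M) (X : ℕ → α) (j : ℕ) :
    wd β X ((toParse β M h).c j) = X j := by
  have h1 : β (Nat.nth (fun q => β q = false) j) = false := Nat.nth_mem_of_infinite h.inf_f j
  change X (Nat.count (fun q => β q = β (Nat.nth (fun q => β q = false) j))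
    (Nat.nth (fun q => β q = false) j)) = X j
  rw [h1, Nat.count_nth_of_infinite h.inf_f]

theorem nth_agree {β β' : ℕ → Bool} {b : Bool} {p : ℕ} (hag : ∀ q, q < p → β q = β' q)
    (hinf : {q | β q = b}.Infinite) (j : ℕ) (hj : Nat.nth (fun q => β q = b) j < p) :
    Nat.nth (fun q => β' q = b) j = Nat.nth (fun q => β q = b) j := by
  have h1 : β (Nat.nth (fun q => β q = b) j) = b := Nat.nth_mem_of_infinite hinf j
  have h2 : β' (Nat.nth (fun q => β q = b) j) = b := by rw [← hag _ hj]; exact h1
  have h3 : Nat.count (fun q => β' q = b) (Nat.nth (fun q => β q = b) j) = j := by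
    have h4 : Nat.count (fun q => β' q = b) (Nat.nth (fun q => β q = b) j) =
        Nat.count (fun q => β q = b) (Nat.nth (fun q => β q = b) j) := by
      rw [Nat.count_eq_card_filter_range, Nat.count_eq_card_filter_range]
      congr 1
      apply Finset.filter_congr
      intro q hq
      rw [Finset.mem_range] at hq
      rw [hag q (by omega)]
    rw [h4, Nat.count_nth_of_infinite hinf]
  have h4 := Nat.nth_count (p := fun q => β' q = b) h2
  rw [h3] at h4
  exact h4

/-- a first difference is impossible -/
theorem first_diff {k M R W : ℕ} (hW : (R + 2) * (R + 2) ≤ W) {β β' : ℕ → Bool}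
    (h : Balanced β M) (h' : Balanced β' M) (hr : RunOK β M R) (hr' : RunOK β' M R)
    {e : Fin k} {x x' : Fin M → Fin k} (hg : Good (toParse β M h) M W e x)
    (heq : ∀ p, p < 2 * M → wd β (ext e x) p = wd β' (ext e x') p)
    {p : ℕ} (hp : p < 2 * M) (hag : ∀ q, q < p → β q = β' q) (h1 : β p = true)
    (h2 : β' p = false) : False := by
  obtain ⟨i, hi⟩ := (o_iff h p).2 h1
  obtain ⟨r, hr1⟩ := (c_iff h' p).2 h2
  have hag' : ∀ q, q < p → β' q = β q := fun q hq => (hag q hq).symm
  refine no_diff (P := toParse β M h) (P' := toParse β' M h') (x := ext e x) (x' := ext e x')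
    (w := wd β (ext e x)) (M := M) (R := R) (W := W) (N := 2 * M) hW (o_lt h) (c_lt h) (o_lt h')
    (c_lt h') (fun j _ => ⟨wd_o h _ j, wd_c h _ j⟩) ?_ (gap_zero h hr (by omega)) (gap h hr)
    (gap h' hr') hg.1 hg.2 hp hi.symm hr1.symm ?_ ?_ ?_ ?_
  · intro j hj
    rw [heq _ ((o_lt h' j).2 hj), heq _ ((c_lt h' j).2 hj)]
    exact ⟨wd_o h' _ j, wd_c h' _ j⟩
  · intro j hj
    exact nth_agree hag h.inf_t j hj
  · intro j hj
    exact nth_agree hag' h'.inf_t j hj
  · intro j hj
    exact nth_agree hag h.inf_f j hj
  · intro j hj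
    exact nth_agree hag' h'.inf_f j hj

/-- a word has at most one good parse -/
theorem unique_parse {k M R W : ℕ} (hW : (R + 2) * (R + 2) ≤ W) {β β' : ℕ → Bool}
    (h : Balanced β M) (h' : Balanced β' M) (hr : RunOK β M R) (hr' : RunOK β' M R)
    {e : Fin k} {x x' : Fin M → Fin k} (hg : Good (toParse β M h) M W e x)
    (hg' : Good (toParse β' M h') M W e x')
    (heq : ∀ p, p < 2 * M → wd β (ext e x) p = wd β' (ext e x') p) :
    (∀ p, p < 2 * M → β p = β' p) ∧ x = x' := by
  have hβ : ∀ p, p < 2 * M → β p = β' p := by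
    by_contra hcon
    push Not at hcon
    classical
    obtain ⟨hp, hne⟩ := Nat.find_spec hcon
    set p := Nat.find hcon with hpdef
    have hag : ∀ q, q < p → β q = β' q := by
      intro q hq
      have := Nat.find_min hcon hq
      push Not at this
      exact this (by omega)
    cases h1 : β p <;> cases h2 : β' p
    · exact hne (h1.trans h2.symm)
    · exact first_diff hW h' h hr' hr hg' (fun q hq => (heq q hq).symm) hp
        (fun q hq => (hag q hq).symm) h2 h1
    · exact first_diff hW h h' hr hr' hg heq hp hag h1 h2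
    · exact hne (h1.trans h2.symm)
  refine ⟨hβ, ?_⟩
  funext j
  have h1 := (o_lt h j).2 j.isLt
  have h2 := nth_agree (p := 2 * M) hβ h.inf_t j h1
  have h3 := heq _ h1
  have h4 := wd_o h (ext e x) j
  have h5 := wd_o h' (ext e x') j
  have h6 : (toParse β' M h').o j = (toParse β M h).o j := h2
  rw [h6] at h5
  rw [h4, h5] at h3
  rwa [ext_lt e x j.isLt, ext_lt e x' j.isLt] at h3

end Pool.Agent.R123.Shuf
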