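import Mathlib

/-!
# Counting words with forbidden and with prescribed coincidences
-/

set_option autoImplicit false

namespace Pool.Agent.R123.Shuf

open Finset

section

variable {k : ℕ}

theorem card_snoc {M : ℕ} {A : Type} [Fintype A] [DecidableEq A] (Q : (Fin (M + 1) → A) → Prop)
    [DecidablePred Q] : (univ.filter Q).card =
      ∑ y : Fin M → A, (univ.filter (fun a : A => Q (Fin.snoc (α := fun _ => A) y a))).card := by
  classical
  rw [Finset.card_eq_sum_card_fiberwise (f := fun x : Fin (M + 1) → A => Fin.init (α := fun _ => A) x)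
    (t := univ) (fun _ _ => Finset.mem_coe.2 (mem_univ _))]
  apply Finset.sum_congr rfl
  intro y _
  symm
  apply Finset.card_bij (fun a _ => Fin.snoc (α := fun _ => A) y a)
  · intro a ha
    simp only [mem_filter, mem_univ, true_and] at ha ⊢
    exact ⟨ha, by simp⟩
  · intro a _ b _ h
    have := congrFun h (Fin.last M)
    simpa using this
  · intro x hx
    simp only [mem_filter, mem_univ, true_and] at hx
    refine ⟨x (Fin.last M), ?_, ?_⟩
    · simp only [mem_filter, mem_univ, true_and]
      rw [← hx.2, Fin.snoc_init_self]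
      exact hx.1
    · rw [← hx.2, Fin.snoc_init_self]

/-- the number of words with the property `Q` -/
noncomputable def cnt {M : ℕ} (Q : (Fin M → Fin k) → Prop) : ℕ := by
  classical
  exact (univ.filter Q).card

theorem cnt_eq {M : ℕ} (Q : (Fin M → Fin k) → Prop) [DecidablePred Q] :
    cnt Q = (univ.filter Q).card := by
  unfold cnt
  congr

theorem cnt_mono {M : ℕ} {Q Q' : (Fin M → Fin k) → Prop} (h : ∀ x, Q x → Q' x) :
    cnt Q ≤ cnt Q' := by
  classical
  rw [cnt_eq, cnt_eq]
  apply card_le_card
  intro x hx
  rw [mem_filter] at hx ⊢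
  exact ⟨hx.1, h x hx.2⟩

variable (C : ℕ → ℕ → Prop)

/-- the words in which the letters number `i` and `r` are different if `C r i` -/
def OK (M : ℕ) (x : Fin M → Fin k) : Prop := ∀ r i : Fin M, r < i → C r i → x i ≠ x r

/-- the number of choices for the letter number `i` -/
noncomputable def num (k : ℕ) (i : ℕ) : ℕ := by
  classical
  exact if ∃ r, r < i ∧ C r i then k - 1 else k

theorem OK_snoc {M : ℕ} (y : Fin M → Fin k) (a : Fin k) :
    OK C (M + 1) (Fin.snoc (α := fun _ => Fin k) y a) ↔
      OK C M y ∧ ∀ r : Fin M, C r M → a ≠ y r := by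
  constructor
  · intro h
    refine ⟨fun r i hri hC => ?_, fun r hC => ?_⟩
    · have := h r.castSucc i.castSucc (by simpa using hri) (by simpa using hC)
      simpa using this
    · have := h r.castSucc (Fin.last M) (Fin.castSucc_lt_last r) (by simpa using hC)
      simpa using this
  · rintro ⟨h1, h2⟩ r i hri hC
    induction i using Fin.lastCases with
    | last =>
      induction r using Fin.lastCases with
      | last => exact absurd hri (lt_irrefl _)
      | cast r =>
        simp only [Fin.snoc_last, Fin.snoc_castSucc]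
        exact h2 r (by simpa using hC)
    | cast i =>
      induction r using Fin.lastCases with
      | last => exact absurd hri (not_lt_of_gt (Fin.castSucc_lt_last i))
      | cast r =>
        simp only [Fin.snoc_castSucc]
        exact h1 r i (by simpa using hri) (by simpa using hC)

open Classical in
theorem card_choices (huniq : ∀ i r r', C r i → C r' i → r = r') {M : ℕ} (y : Fin M → Fin k) :
    (univ.filter (fun a : Fin k => ∀ r : Fin M, C r M → a ≠ y r)).card = num C k M := by
  unfold num
  split_ifs with h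
  · obtain ⟨r, hr, hC⟩ := h
    have h1 : (univ.filter (fun a : Fin k => ∀ r : Fin M, C r M → a ≠ y r)) =
        univ.erase (y ⟨r, hr⟩) := by
      ext a
      simp only [mem_filter, mem_univ, true_and, mem_erase, and_true]
      constructor
      · intro h2
        exact h2 ⟨r, hr⟩ hC
      · intro h2 r' hC'
        have h3 := huniq M r' r hC' hC
        have h4 : r' = ⟨r, hr⟩ := Fin.ext h3
        rw [h4]
        exact h2
    rw [h1, card_erase_of_mem (mem_univ _), card_univ, Fintype.card_fin]
  · have h1 : (univ.filter (fun a : Fin k => ∀ r : Fin M, C r M → a ≠ y r)) = univ := by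
      ext a
      simp only [mem_filter, mem_univ, true_and, iff_true]
      intro r hC
      exact absurd ⟨r.val, r.isLt, hC⟩ h
    rw [h1, card_univ, Fintype.card_fin]

theorem cnt_succ (huniq : ∀ i r r', C r i → C r' i → r = r') {M : ℕ}
    (Q : (Fin M → Fin k) → Prop) :
    cnt (fun x : Fin (M + 1) → Fin k => OK C (M + 1) x ∧ Q (Fin.init (α := fun _ => Fin k) x)) =
      num C k M * cnt (fun y => OK C M y ∧ Q y) := by
  classical
  rw [cnt_eq, cnt_eq, card_snoc, card_eq_sum_ones, sum_filter, mul_sum]
  apply sum_congr rfl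
  intro y _
  simp only [OK_snoc, Fin.init_snoc]
  by_cases h : OK C M y ∧ Q y
  · rw [if_pos h, mul_one, ← card_choices C huniq y]
    congr 1
    ext a
    simp only [mem_filter, mem_univ, true_and]
    tauto
  · rw [if_neg h, mul_zero, card_eq_zero, filter_eq_empty_iff]
    intro a _ h2
    exact h ⟨h2.1.1, h2.2⟩

theorem cnt_last {M : ℕ} (Q : (Fin M → Fin k) → Prop) (c : Fin M) :
    cnt (fun x : Fin (M + 1) → Fin k => OK C (M + 1) x ∧ Q (Fin.init (α := fun _ => Fin k) x) ∧
      x c.castSucc = x (Fin.last M)) ≤ cnt (fun y => OK C M y ∧ Q y) := by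
  classical
  rw [cnt_eq, cnt_eq, card_snoc, card_eq_sum_ones, sum_filter]
  apply sum_le_sum
  intro y _
  simp only [OK_snoc, Fin.init_snoc, Fin.snoc_castSucc, Fin.snoc_last]
  by_cases h : OK C M y ∧ Q y
  · rw [if_pos h]
    have h1 : (univ.filter (fun a : Fin k => (OK C M y ∧ ∀ r : Fin M, C r M → a ≠ y r) ∧
        Q y ∧ y c = a)) ⊆ {y c} := by
      intro a ha
      simp only [mem_filter, mem_univ, true_and] at ha
      rw [mem_singleton]
      exact ha.2.2.symm
    have := card_le_card h1
    rwa [card_singleton] at this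
  · rw [if_neg h]
    apply le_of_eq
    rw [card_eq_zero, filter_eq_empty_iff]
    intro a _ h2
    exact h ⟨h2.1.1, h2.2.1⟩

theorem num_ge (i : ℕ) : k - 1 ≤ num C k i := by
  unfold num
  split_ifs <;> omega

theorem cnt_OK_succ (huniq : ∀ i r r', C r i → C r' i → r = r') (M : ℕ) :
    cnt (fun x : Fin (M + 1) → Fin k => OK C (M + 1) x) =
      num C k M * cnt (fun x : Fin M → Fin k => OK C M x) := by
  have := cnt_succ (k := k) C huniq (M := M) (fun _ => True)
  simpa using this

theorem cnt_OK_zero : cnt (fun x : Fin 0 → Fin k => OK C 0 x) = 1 := by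
  classical
  rw [cnt_eq, filter_true_of_mem, card_univ]
  · simp
  · intro x _ r
    exact r.elim0

theorem one_coincidence (huniq : ∀ i r r', C r i → C r' i → r = r') (M : ℕ) :
    ∀ a b : Fin M, a < b →
      cnt (fun x : Fin M → Fin k => OK C M x ∧ x a = x b) * (k - 1) ≤
        cnt (fun x : Fin M → Fin k => OK C M x) := by
  induction M with
  | zero => intro a; exact a.elim0
  | succ M ih =>
    intro a b hab
    rw [cnt_OK_succ C huniq]
    obtain ⟨a, rfl⟩ := Fin.exists_castSucc_eq.2 (show a ≠ Fin.last M by
      rintro rfl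
      exact absurd hab (not_lt_of_ge (Fin.le_last _)))
    induction b using Fin.lastCases with
    | last =>
      have h1 : cnt (fun x : Fin (M + 1) → Fin k => OK C (M + 1) x ∧ x a.castSucc = x (Fin.last M)) ≤
          cnt (fun x : Fin M → Fin k => OK C M x) := by
        have := cnt_last (k := k) C (M := M) (fun _ => True) a
        simpa using this
      have h2 := num_ge (k := k) C M
      calc _ ≤ cnt (fun x : Fin M → Fin k => OK C M x) * (k - 1) := Nat.mul_le_mul_right _ h1
        _ ≤ cnt (fun x : Fin M → Fin k => OK C M x) * num C k M := Nat.mul_le_mul_left _ h2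
        _ = _ := mul_comm _ _
    | cast b =>
      have h1 : cnt (fun x : Fin (M + 1) → Fin k => OK C (M + 1) x ∧ x a.castSucc = x b.castSucc) =
          num C k M * cnt (fun x : Fin M → Fin k => OK C M x ∧ x a = x b) :=
        cnt_succ (k := k) C huniq (M := M) (fun x => x a = x b)
      rw [h1, mul_assoc]
      exact Nat.mul_le_mul_left _ (ih a b (by simpa using hab))

theorem two_coincidences (huniq : ∀ i r r', C r i → C r' i → r = r') (M : ℕ) :
    ∀ a b c d : Fin M, a < b → c < d → b < d →
      cnt (fun x : Fin M → Fin k => OK C M x ∧ x a = x b ∧ x c = x d) * ((k - 1) * (k - 1)) ≤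
        cnt (fun x : Fin M → Fin k => OK C M x) := by
  induction M with
  | zero => intro a; exact a.elim0
  | succ M ih =>
    intro a b c d hab hcd hbd
    rw [cnt_OK_succ C huniq]
    obtain ⟨a, rfl⟩ := Fin.exists_castSucc_eq.2 (show a ≠ Fin.last M by
      rintro rfl
      exact absurd hab (not_lt_of_ge (Fin.le_last _)))
    obtain ⟨b, rfl⟩ := Fin.exists_castSucc_eq.2 (show b ≠ Fin.last M by
      rintro rfl
      exact absurd hbd (not_lt_of_ge (Fin.le_last _)))
    obtain ⟨c, rfl⟩ := Fin.exists_castSucc_eq.2 (show c ≠ Fin.last M by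
      rintro rfl
      exact absurd hcd (not_lt_of_ge (Fin.le_last _)))
    induction d using Fin.lastCases with
    | last =>
      have h1 : cnt (fun x : Fin (M + 1) → Fin k => OK C (M + 1) x ∧ x a.castSucc = x b.castSucc ∧
          x c.castSucc = x (Fin.last M)) ≤ cnt (fun x : Fin M → Fin k => OK C M x ∧ x a = x b) :=
        cnt_last (k := k) C (M := M) (fun x => x a = x b) c
      have h2 := num_ge (k := k) C M
      have h3 := one_coincidence (k := k) C huniq M a b (by simpa using hab)
      calc _ ≤ cnt (fun x : Fin M → Fin k => OK C M x ∧ x a = x b) * ((k - 1) * (k - 1)) :=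
            Nat.mul_le_mul_right _ h1
        _ = cnt (fun x : Fin M → Fin k => OK C M x ∧ x a = x b) * (k - 1) * (k - 1) := by ring
        _ ≤ cnt (fun x : Fin M → Fin k => OK C M x) * (k - 1) := Nat.mul_le_mul_right _ h3
        _ ≤ cnt (fun x : Fin M → Fin k => OK C M x) * num C k M := Nat.mul_le_mul_left _ h2
        _ = _ := mul_comm _ _
    | cast d =>
      have h1 : cnt (fun x : Fin (M + 1) → Fin k => OK C (M + 1) x ∧ x a.castSucc = x b.castSucc ∧
          x c.castSucc = x d.castSucc) =
          num C k M * cnt (fun x : Fin M → Fin k => OK C M x ∧ x a = x b ∧ x c = x d) :=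
        cnt_succ (k := k) C huniq (M := M) (fun x => x a = x b ∧ x c = x d)
      rw [h1, mul_assoc]
      exact Nat.mul_le_mul_left _
        (ih a b c d (by simpa using hab) (by simpa using hcd) (by simpa using hbd))

theorem two_pairs (huniq : ∀ i r r', C r i → C r' i → r = r') {M : ℕ} (a b c d : Fin M)
    (hab : a ≠ b) (hcd : c ≠ d) (h1 : ¬ (a = c ∧ b = d)) (h2 : ¬ (a = d ∧ b = c)) :
      cnt (fun x : Fin M → Fin k => OK C M x ∧ x a = x b ∧ x c = x d) * ((k - 1) * (k - 1)) ≤
        cnt (fun x : Fin M → Fin k => OK C M x) := by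
  -- a form symmetric in the order of the pairs
  have key : ∀ a b c d : Fin M, a < b → c < d → b < d →
      ∀ Q : (Fin M → Fin k) → Prop, (∀ x, Q x → x a = x b ∧ x c = x d) →
      cnt (fun x : Fin M → Fin k => OK C M x ∧ Q x) * ((k - 1) * (k - 1)) ≤
        cnt (fun x : Fin M → Fin k => OK C M x) := by
    intro a b c d hab hcd hbd Q hQ
    exact le_trans (Nat.mul_le_mul_right _ (cnt_mono fun x hx => ⟨hx.1, hQ x hx.2⟩))
      (two_coincidences (k := k) C huniq M a b c d hab hcd hbd)
  have key2 : ∀ a b c d : Fin M, a < b → c < d → ¬ (a = c ∧ b = d) →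
      ∀ Q : (Fin M → Fin k) → Prop, (∀ x, Q x → x a = x b ∧ x c = x d) →
      cnt (fun x : Fin M → Fin k => OK C M x ∧ Q x) * ((k - 1) * (k - 1)) ≤
        cnt (fun x : Fin M → Fin k => OK C M x) := by
    intro a b c d hab hcd hne Q hQ
    rcases lt_trichotomy b d with hbd | hbd | hbd
    · exact key a b c d hab hcd hbd Q hQ
    · subst hbd
      have hac : a ≠ c := fun h => hne ⟨h, rfl⟩
      rcases lt_or_gt_of_ne hac with hac | hac
      · exact key a c c b hac hcd hcd Q (fun x hx => by
          have := hQ x hx
          exact ⟨this.1.trans this.2.symm, this.2⟩)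
      · exact key c a a b hac hab hab Q (fun x hx => by
          have := hQ x hx
          exact ⟨this.2.trans this.1.symm, this.1⟩)
    · exact key c d a b hcd hab hbd Q (fun x hx => (hQ x hx).symm)
  rcases lt_or_gt_of_ne hab with hab | hab <;> rcases lt_or_gt_of_ne hcd with hcd | hcd
  · exact key2 a b c d hab hcd h1 (fun x => x a = x b ∧ x c = x d) (fun x hx => hx)
  · exact key2 a b d c hab hcd h2 (fun x => x a = x b ∧ x c = x d)
      (fun x hx => ⟨hx.1, hx.2.symm⟩)
  · exact key2 b a c d hab hcd (fun h => h2 ⟨h.2, h.1⟩) (fun x => x a = x b ∧ x c = x d)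
      (fun x hx => ⟨hx.1.symm, hx.2⟩)
  · exact key2 b a d c hab hcd (fun h => h1 ⟨h.2, h.1⟩) (fun x => x a = x b ∧ x c = x d)
      (fun x hx => ⟨hx.1.symm, hx.2.symm⟩)

end

end Pool.Agent.R123.Shuf
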