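import Pool.Agent.R123.Shuf.Bool

/-!
# Dyck words as 0-1-sequences; runs and peaks
-/

set_option autoImplicit false

namespace Pool.Agent.R123.Shuf

open Finset DyckStep

/-- the 0-1-sequence of a list of steps, continued by up, down, up, down, … -/
def bet (l : List DyckStep) (p : ℕ) : Bool :=
  match l[p]? with
  | some s => decide (s = U)
  | none => decide (p % 2 = 0)

theorem bet_lt {l : List DyckStep} {p : ℕ} (hp : p < l.length) : bet l p = decide (l[p] = U) := by
  unfold bet
  rw [List.getElem?_eq_getElem hp]

theorem bet_ge {l : List DyckStep} {p : ℕ} (hp : l.length ≤ p) :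
    bet l p = decide (p % 2 = 0) := by
  unfold bet
  rw [List.getElem?_eq_none hp]

theorem count_bet (l : List DyckStep) (p : ℕ) (hp : p ≤ l.length) :
    Nat.count (fun q => bet l q = true) p = (l.take p).count U ∧
      Nat.count (fun q => bet l q = false) p = (l.take p).count D := by
  induction p with
  | zero => simp
  | succ p ih =>
    obtain ⟨h1, h2⟩ := ih (by omega)
    rw [Nat.count_succ, Nat.count_succ, h1, h2, List.take_add_one,
      List.getElem?_eq_getElem (show p < l.length by omega), bet_lt (show p < l.length by omega),
      List.count_append, List.count_append]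
    rcases (l[p]).dichotomy with h | h
    · rw [h]; simp
    · rw [h]; simp

theorem balanced_bet (w : DyckWord) {M : ℕ} (hw : w.semilength = M) :
    Balanced (bet w.toList) M := by
  have hl : w.toList.length = 2 * M := by rw [← w.two_mul_semilength_eq_length, hw]
  have hct : Nat.count (fun q => bet w.toList q = true) (2 * M) = M := by
    rw [(count_bet w.toList (2 * M) (by omega)).1, List.take_of_length_le (by omega)]
    exact hw
  have hcf : Nat.count (fun q => bet w.toList q = false) (2 * M) = M := by
    rw [(count_bet w.toList (2 * M) (by omega)).2, List.take_of_length_le (by omega),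
      ← w.semilength_eq_count_D]
    exact hw
  have htail : ∀ q, bet w.toList (2 * M + q) = decide (q % 2 = 0) := by
    intro q
    rw [bet_ge (by omega)]
    congr 1
    rw [Nat.mul_add_mod]
  refine ⟨?_, ?_, ?_, hct, hcf⟩
  · apply Set.infinite_of_not_bddAbove
    rintro ⟨b, hb⟩
    have h1 : 2 * M + 2 * (b + 1) ≤ b := by
      apply hb
      change bet w.toList (2 * M + 2 * (b + 1)) = true
      rw [htail]; simp
    omega
  · apply Set.infinite_of_not_bddAbove
    rintro ⟨b, hb⟩
    have h1 : 2 * M + (2 * (b + 1) + 1) ≤ b := by
      apply hb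
      change bet w.toList (2 * M + (2 * (b + 1) + 1)) = false
      rw [htail]; simp
    omega
  · have htc : ∀ q, Nat.count (fun q => bet w.toList q = true) (2 * M + q) = M + (q + 1) / 2 ∧
        Nat.count (fun q => bet w.toList q = false) (2 * M + q) = M + q / 2 := by
      intro q
      induction q with
      | zero => simp [hct, hcf]
      | succ q ih =>
        rw [← add_assoc, Nat.count_succ, Nat.count_succ, ih.1, ih.2, htail]
        rcases Nat.mod_two_eq_zero_or_one q with h | h
        · rw [h]; simp only [decide_true, if_true, Bool.true_eq_false, if_false]; omega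
        · rw [h]; simp only [one_ne_zero, decide_false, Bool.false_eq_true, if_false, if_true]; omega
    intro p
    rcases Nat.lt_or_ge p (2 * M) with hp | hp
    · rw [(count_bet w.toList p (by omega)).1, (count_bet w.toList p (by omega)).2]
      exact w.count_D_le_count_U p
    · obtain ⟨q, rfl⟩ : ∃ q, p = 2 * M + q := ⟨p - 2 * M, by omega⟩
      rw [(htc q).1, (htc q).2]
      omega

/-- Dyck words of semilength `M` -/
abbrev DW (M : ℕ) := {w : DyckWord // w.semilength = M}

theorem length_DW {M : ℕ} (w : DW M) : w.1.toList.length = 2 * M := by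
  rw [← w.1.two_mul_semilength_eq_length, w.2]

theorem bet_inj {M : ℕ} (w w' : DW M) (h : ∀ p, p < 2 * M → bet w.1.toList p = bet w'.1.toList p) :
    w = w' := by
  apply Subtype.ext
  apply DyckWord.ext
  apply List.ext_getElem
  · rw [length_DW, length_DW]
  · intro p h1 h2
    have h3 := h p (by rwa [length_DW] at h1)
    rw [bet_lt h1, bet_lt h2] at h3
    rcases (w.1.toList[p]).dichotomy with h4 | h4 <;> rcases (w'.1.toList[p]).dichotomy with h5 | h5
    · rw [h4, h5]
    · rw [h4, h5] at h3; exact absurd h3 (by decide)
    · rw [h4, h5] at h3; exact absurd h3 (by decide)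
    · rw [h4, h5]

open Classical in
/-- the Dyck words without long runs of openings -/
noncomputable def B (M R : ℕ) : Finset (DW M) := univ.filter (fun w => RunOK (bet w.1.toList) M R)

theorem card_DW (M : ℕ) : Fintype.card (DW M) = catalan M :=
  DyckWord.card_dyckWord_semilength_eq_catalan M

theorem card_fun (N : ℕ) (I : Finset (Fin N)) :
    (univ.filter (fun f : Fin N → Bool => ∀ i ∈ I, f i = true)).card = 2 ^ (N - I.card) := by
  classical
  have h1 : univ.filter (fun f : Fin N → Bool => ∀ i ∈ I, f i = true) =
      Fintype.piFinset (fun i => if i ∈ I then {true} else univ) := by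
    ext f
    simp only [mem_filter, mem_univ, true_and, Fintype.mem_piFinset]
    constructor
    · intro h i
      split_ifs with hi
      · rw [mem_singleton]; exact h i hi
      · exact mem_univ _
    · intro h i hi
      have := h i
      rw [if_pos hi, mem_singleton] at this
      exact this
  rw [h1, Fintype.card_piFinset]
  have h2 : ∀ i : Fin N, (if i ∈ I then ({true} : Finset Bool) else univ).card =
      if i ∈ I then 1 else 2 := by
    intro i
    split_ifs <;> simp
  simp only [h2]
  rw [prod_ite, prod_const_one, one_mul, prod_const]
  congr 1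
  rw [← compl_filter, card_compl, Fintype.card_fin]
  congr 1
  congr 1
  ext i
  simp

open Classical in
/-- few Dyck words have long runs -/
theorem card_bad_le (M R : ℕ) :
    (univ.filter (fun w : DW M => ¬ RunOK (bet w.1.toList) M R)).card * 2 ^ (R + 1) ≤
      2 * M * 4 ^ M := by
  let I : ℕ → Finset (Fin (2 * M)) := fun p => univ.filter (fun i => p ≤ i.val ∧ i.val ≤ p + R)
  let T := (range (2 * M)).filter (fun p => p + R < 2 * M)
  have hI : ∀ p ∈ T, (I p).card = R + 1 := by
    intro p hp
    simp only [T, mem_filter, mem_range] at hp
    have h1 : (I p).map Fin.valEmbedding = Icc p (p + R) := by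
      ext q
      simp only [I, mem_map, mem_filter, mem_univ, true_and, Fin.valEmbedding_apply, mem_Icc]
      constructor
      · rintro ⟨i, hi, rfl⟩
        exact hi
      · intro hq
        exact ⟨⟨q, by omega⟩, hq, rfl⟩
    rw [← card_map Fin.valEmbedding, h1, Nat.card_Icc]
    omega
  have h1 : (univ.filter (fun w : DW M => ¬ RunOK (bet w.1.toList) M R)).card ≤
      ∑ p ∈ T, 2 ^ (2 * M - (R + 1)) := by
    have h2 : (univ.filter (fun w : DW M => ¬ RunOK (bet w.1.toList) M R)).card ≤
        (T.biUnion fun p => univ.filter (fun f : Fin (2 * M) → Bool => ∀ i ∈ I p, f i = true)).card := by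
      apply card_le_card_of_injOn (fun w => fun i : Fin (2 * M) => bet w.1.toList i)
      · intro w hw
        have hw' : ¬ RunOK (bet w.1.toList) M R := by simpa using hw
        unfold RunOK at hw'
        push Not at hw'
        obtain ⟨p, hp, hq⟩ := hw'
        rw [mem_coe, mem_biUnion]
        refine ⟨p, ?_, ?_⟩
        · simp only [T, mem_filter, mem_range]
          omega
        · simp only [mem_filter, mem_univ, true_and, I]
          intro i hi
          have := hq i.val hi.1 hi.2
          simpa using this
      · intro w _ w' _ heq
        apply bet_inj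
        intro p hp
        exact congrFun heq ⟨p, hp⟩
    refine h2.trans (card_biUnion_le.trans ?_)
    apply sum_le_sum
    intro p hp
    rw [card_fun, hI p hp]
  calc _ ≤ (∑ p ∈ T, 2 ^ (2 * M - (R + 1))) * 2 ^ (R + 1) := Nat.mul_le_mul_right _ h1
    _ = ∑ p ∈ T, 2 ^ (2 * M - (R + 1)) * 2 ^ (R + 1) := by rw [sum_mul]
    _ ≤ ∑ p ∈ T, 4 ^ M := by
        apply sum_le_sum
        intro p hp
        simp only [T, mem_filter, mem_range] at hp
        rw [← pow_add, show 2 * M - (R + 1) + (R + 1) = 2 * M by omega, pow_mul]
        norm_num
    _ = T.card * 4 ^ M := by simp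
    _ ≤ 2 * M * 4 ^ M := by
        apply Nat.mul_le_mul_right
        have := card_filter_le (range (2 * M)) (fun p => p + R < 2 * M)
        rwa [card_range] at this

/-- the peaks -/
def peaks (β : ℕ → Bool) (M : ℕ) : Finset ℕ :=
  (range (2 * M - 1)).filter (fun p => β p = true ∧ β (p + 1) = false)

/-- remove the places `p` and `p + 1` -/
def del (l : List DyckStep) (p : ℕ) : List DyckStep := l.take p ++ l.drop (p + 2)

theorem split_at {l : List DyckStep} {p : ℕ} (hp : p + 1 < l.length) (h1 : bet l p = true)
    (h2 : bet l (p + 1) = false) : l = l.take p ++ (U :: D :: l.drop (p + 2)) := by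
  rw [bet_lt (by omega)] at h1
  rw [bet_lt hp] at h2
  have h1' : l[p] = U := by simpa using h1
  have h2' : l[p + 1] = D := by
    rcases (l[p + 1]).dichotomy with h | h
    · rw [h] at h2; simp at h2
    · exact h
  conv_lhs => rw [← List.take_append_drop p l]
  congr 1
  rw [List.drop_eq_getElem_cons (by omega), h1', List.drop_eq_getElem_cons hp, h2']

/-- the Dyck word without the peak at `p` -/
def delW {m : ℕ} (w : DW (m + 1)) (p : ℕ) (hp : p + 1 < 2 * (m + 1))
    (h1 : bet w.1.toList p = true) (h2 : bet w.1.toList (p + 1) = false) : DW m := by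
  have hs := split_at (l := w.1.toList) (p := p) (by rw [length_DW]; exact hp) h1 h2
  have hcU : w.1.toList.count U = (del w.1.toList p).count U + 1 := by
    conv_lhs => rw [hs]
    unfold del
    rw [List.count_append, List.count_append]
    simp only [List.count_cons_self, List.count_cons_of_ne (show D ≠ U by decide)]
    omega
  have hcD : w.1.toList.count D = (del w.1.toList p).count D + 1 := by
    conv_lhs => rw [hs]
    unfold del
    rw [List.count_append, List.count_append]
    simp only [List.count_cons_self, List.count_cons_of_ne (show U ≠ D by decide)]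
    omega
  refine ⟨⟨del w.1.toList p, ?_, ?_⟩, ?_⟩
  · have := w.1.count_U_eq_count_D
    omega
  · intro i
    rcases Nat.lt_or_ge p i with hi | hi
    · have h3 := w.1.count_D_le_count_U (i + 2)
      have hlen : (w.1.toList.take p).length = p := by
        rw [List.length_take, length_DW]; omega
      have e1 : w.1.toList.take (i + 2) =
          w.1.toList.take p ++ (U :: D :: (w.1.toList.drop (p + 2)).take (i - p)) := by
        conv_lhs => rw [hs]
        rw [List.take_append, hlen, List.take_of_length_le (by rw [hlen]; omega),
          show i + 2 - p = (i - p) + 1 + 1 by omega, List.take_succ_cons, List.take_succ_cons]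
      have e2 : (del w.1.toList p).take i =
          w.1.toList.take p ++ (w.1.toList.drop (p + 2)).take (i - p) := by
        unfold del
        rw [List.take_append, hlen, List.take_of_length_le (by rw [hlen]; omega)]
      rw [e1, List.count_append, List.count_append] at h3
      rw [e2, List.count_append, List.count_append]
      simp only [List.count_cons_self, List.count_cons_of_ne (show U ≠ D by decide),
        List.count_cons_of_ne (show D ≠ U by decide)] at h3
      omega
    · have h3 := w.1.count_D_le_count_U i
      have hlen : (w.1.toList.take p).length = p := by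
        rw [List.length_take, length_DW]; omega
      have e2 : (del w.1.toList p).take i = w.1.toList.take i := by
        unfold del
        rw [List.take_append_of_le_length (by rw [hlen]; exact hi), List.take_take,
          Nat.min_eq_left hi]
      rw [e2]
      exact h3
  · have h3 : w.1.toList.count U = m + 1 := w.2
    change (del w.1.toList p).count U = m
    omega

theorem del_inj {m : ℕ} (w w' : DW (m + 1)) (p : ℕ) (hp : p + 1 < 2 * (m + 1))
    (h1 : bet w.1.toList p = true) (h2 : bet w.1.toList (p + 1) = false)
    (h1' : bet w'.1.toList p = true) (h2' : bet w'.1.toList (p + 1) = false)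
    (h3 : del w.1.toList p = del w'.1.toList p) : w = w' := by
  unfold del at h3
  have hlen : (w.1.toList.take p).length = (w'.1.toList.take p).length := by
    rw [List.length_take, List.length_take, length_DW, length_DW]
  obtain ⟨h4, h5⟩ := List.append_inj h3 hlen
  apply Subtype.ext
  apply DyckWord.ext
  rw [split_at (l := w.1.toList) (p := p) (by rw [length_DW]; exact hp) h1 h2,
    split_at (l := w'.1.toList) (p := p) (by rw [length_DW]; exact hp) h1' h2', h4, h5]

/-- the total number of peaks -/
theorem sum_peaks_le (m : ℕ) :
    ∑ w : DW (m + 1), (peaks (bet w.1.toList) (m + 1)).card ≤ (2 * m + 1) * catalan m := by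
  classical
  rw [← card_sigma univ (fun w : DW (m + 1) => peaks (bet w.1.toList) (m + 1))]
  have hmem : ∀ t ∈ (univ : Finset (DW (m + 1))).sigma
      (fun w : DW (m + 1) => peaks (bet w.1.toList) (m + 1)),
      t.2 + 1 < 2 * (m + 1) ∧ bet t.1.1.toList t.2 = true ∧
        bet t.1.1.toList (t.2 + 1) = false := by
    intro t ht
    simp only [mem_sigma, mem_univ, true_and, peaks, mem_filter, mem_range] at ht
    exact ⟨by omega, ht.2.1, ht.2.2⟩
  have h1 : ((univ : Finset (DW (m + 1))).sigma
      (fun w : DW (m + 1) => peaks (bet w.1.toList) (m + 1))).card ≤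
      (((univ : Finset (DW m)).image (fun v => v.1.toList)) ×ˢ range (2 * m + 1)).card := by
    apply card_le_card_of_injOn (fun t => (del t.1.1.toList t.2, t.2))
    · intro t ht
      obtain ⟨g1, g2, g3⟩ := hmem t ht
      rw [mem_coe, mem_product, mem_image, mem_range]
      exact ⟨⟨delW t.1 t.2 g1 g2 g3, mem_univ _, rfl⟩, show t.2 < 2 * m + 1 by omega⟩
    · rintro ⟨w, p⟩ ht ⟨w', p'⟩ ht' heq
      obtain ⟨g1, g2, g3⟩ := hmem _ ht
      obtain ⟨g1', g2', g3'⟩ := hmem _ ht'
      simp only [Prod.mk.injEq] at heq
      obtain ⟨h3, h4⟩ := heq
      subst h4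
      have h5 := del_inj w w' p g1 g2 g3 g2' g3' h3
      subst h5
      rfl
  refine h1.trans ?_
  rw [card_product, card_range, mul_comm]
  apply Nat.mul_le_mul_left
  refine card_image_le.trans ?_
  rw [card_univ, card_DW]

/-- the number of constraints of a parse is at most the number of peaks -/
theorem card_constraints_le {M : ℕ} (β : ℕ → Bool) (h : Balanced β M) [DecidablePred
    (fun i => ∃ r, r < i ∧ Peak (toParse β M h) r i)] :
    ((range M).filter (fun i => ∃ r, r < i ∧ Peak (toParse β M h) r i)).card ≤
      (peaks β M).card := by
  apply card_le_card_of_injOn (toParse β M h).o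
  · intro i hi
    simp only [coe_filter, mem_range, Set.mem_ofPred_eq] at hi
    obtain ⟨hiM, r, hri, hp⟩ := hi
    unfold Peak at hp
    have h1 := (o_iff h ((toParse β M h).o i)).1 ⟨i, rfl⟩
    have h2 := (c_iff h ((toParse β M h).o i + 1)).1 ⟨r, hp.symm⟩
    have h3 := (c_lt h r).2 (by omega)
    simp only [peaks, coe_filter, mem_range, Set.mem_ofPred_eq]
    exact ⟨by omega, h1, h2⟩
  · intro i _ j _ hij
    exact (toParse β M h).o_mono.injective hij

end Pool.Agent.R123.Shuf
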