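import Pool.Agent.R123.Shuf.Parse
import Pool.Agent.R123.Shuf.Count

/-!
# Most words are good for a given parse
-/

set_option autoImplicit false

namespace Pool.Agent.R123.Shuf

open Finset

section

variable {k : ℕ} (P : Parse)

/-- the edge number `r` is closed immediately after the edge number `i` is opened -/
def Peak (r i : ℕ) : Prop := P.c r = P.o i + 1

theorem peak_uniq (i r r' : ℕ) (h : Peak P r i) (h' : Peak P r' i) : r = r' :=
  P.c_mono.injective (h.trans h'.symm)

/-- the letters, with `e` after the end -/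
def ext {M : ℕ} (e : Fin k) (x : Fin M → Fin k) (j : ℕ) : Fin k := if h : j < M then x ⟨j, h⟩ else e

theorem ext_lt {M : ℕ} (e : Fin k) (x : Fin M → Fin k) {j : ℕ} (h : j < M) :
    ext e x j = x ⟨j, h⟩ := by
  unfold ext
  rw [dif_pos h]

/-- good words of letters for the parse `P` -/
def Good (M W : ℕ) (e : Fin k) (x : Fin M → Fin k) : Prop :=
  Canon P (ext e x) M ∧ Cond3 P (ext e x) M W

theorem canon_iff {M : ℕ} (e : Fin k) (x : Fin M → Fin k) :
    Canon P (ext e x) M ↔ OK (Peak P) M x := by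
  constructor
  · intro h r i hri hC
    have := h r i i.isLt hri hC
    rwa [ext_lt e x i.isLt, ext_lt e x r.isLt] at this
  · intro h r i hi hri hC
    have := h ⟨r, by omega⟩ ⟨i, hi⟩ hri hC
    rwa [ext_lt e x hi, ext_lt e x (show r < M by omega)]

open Classical in
/-- the edges near the edge `a` -/
noncomputable def nb (M W : ℕ) (a : Fin M) : Finset (Fin M) :=
  univ.filter (fun b : Fin M => Near P W a b)

theorem card_nb_le {M W : ℕ} (a : Fin M) : (nb P M W a).card ≤ 4 * W + 2 := by
  classical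
  have hex : ∀ b : Fin M, ∃ v, b ∈ nb P M W a →
      (v = P.o b ∨ v = P.c b) ∧ v ∈ Icc (P.o a - W) (P.o a + W) ∪ Icc (P.c a - W) (P.c a + W) := by
    intro b
    by_cases hb : b ∈ nb P M W a
    · have h1 : Near P W a b := by
        unfold nb at hb
        rw [mem_filter] at hb
        exact hb.2
      obtain ⟨u, v, hu, hv, h2, h3⟩ := h1
      refine ⟨v, fun _ => ⟨hv, ?_⟩⟩
      rw [mem_union, mem_Icc, mem_Icc]
      rcases hu with rfl | rfl
      · left; omega
      · right; omega
    · exact ⟨0, fun h => absurd h hb⟩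
  choose v hv using hex
  have h1 : (nb P M W a).card ≤
      (Icc (P.o a - W) (P.o a + W) ∪ Icc (P.c a - W) (P.c a + W)).card := by
    apply card_le_card_of_injOn v
    · intro b hb
      exact (hv b hb).2
    · intro b hb b' hb' heq
      have e1 := (hv b hb).1
      have e2 := (hv b' hb').1
      rw [heq] at e1
      apply Fin.ext
      rcases e1 with e1 | e1 <;> rcases e2 with e2 | e2
      · exact P.o_mono.injective (e1.symm.trans e2)
      · exact absurd (e1.symm.trans e2) (P.disj _ _)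
      · exact absurd (e2.symm.trans e1) (P.disj _ _)
      · exact P.c_mono.injective (e1.symm.trans e2)
  have h2 := card_union_le (Icc (P.o a - W) (P.o a + W)) (Icc (P.c a - W) (P.c a + W))
  rw [Nat.card_Icc, Nat.card_Icc] at h2
  omega

/-- the quadruples of edges which must not carry coincidences -/
noncomputable def quad (M W : ℕ) : Finset (Σ _ : Fin M, Σ _ : Fin M, Σ _ : Fin M, Fin M) :=
  univ.sigma fun a => (nb P M W a).sigma fun _ => (nb P M W a).sigma fun c => nb P M W c

theorem card_quad_le (M W : ℕ) : (quad P M W).card ≤ M * (4 * W + 2) ^ 3 := by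
  unfold quad
  rw [card_sigma]
  calc _ ≤ ∑ _a : Fin M, (4 * W + 2) ^ 3 := by
        apply sum_le_sum
        intro a _
        rw [card_sigma]
        calc _ ≤ ∑ _b ∈ nb P M W a, (4 * W + 2) ^ 2 := by
              apply sum_le_sum
              intro b _
              rw [card_sigma]
              calc _ ≤ ∑ _c ∈ nb P M W a, (4 * W + 2) :=
                    sum_le_sum fun c _ => card_nb_le P c
                _ = (nb P M W a).card * (4 * W + 2) := by simp
                _ ≤ (4 * W + 2) * (4 * W + 2) := Nat.mul_le_mul_right _ (card_nb_le P a)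
                _ = _ := by ring
          _ = (nb P M W a).card * (4 * W + 2) ^ 2 := by simp
          _ ≤ (4 * W + 2) * (4 * W + 2) ^ 2 := Nat.mul_le_mul_right _ (card_nb_le P a)
          _ = _ := by ring
    _ = _ := by simp

theorem not_good {M W : ℕ} (e : Fin k) (x : Fin M → Fin k) (h1 : OK (Peak P) M x)
    (h2 : ¬ Good P M W e x) : ∃ t ∈ quad P M W, t.1 ≠ t.2.1 ∧ t.2.2.1 ≠ t.2.2.2 ∧
      ¬ (t.1 = t.2.2.1 ∧ t.2.1 = t.2.2.2) ∧ ¬ (t.1 = t.2.2.2 ∧ t.2.1 = t.2.2.1) ∧
      x t.1 = x t.2.1 ∧ x t.2.2.1 = x t.2.2.2 := by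
  classical
  have h3 : ¬ Cond3 P (ext e x) M W := fun h => h2 ⟨(canon_iff P e x).2 h1, h⟩
  unfold Cond3 at h3
  push Not at h3
  obtain ⟨a, b, c, d, ha, hb, hc, hd, hab, hcd, g1, g2, n1, n2, n3, e1, e2, -⟩ := h3
  refine ⟨⟨⟨a, ha⟩, ⟨b, hb⟩, ⟨c, hc⟩, ⟨d, hd⟩⟩, ?_, ?_, ?_, ?_, ?_, ?_, ?_⟩
  · unfold quad nb
    simp only [mem_sigma, mem_univ, true_and, mem_filter]
    exact ⟨n1, n3, n2⟩
  · intro h
    exact hab (congrArg Fin.val h)
  · intro h
    exact hcd (congrArg Fin.val h)
  · rintro ⟨h, h'⟩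
    exact g1 (congrArg Fin.val h) (congrArg Fin.val h')
  · rintro ⟨h, h'⟩
    exact g2 (congrArg Fin.val h) (congrArg Fin.val h')
  · rwa [ext_lt e x ha, ext_lt e x hb] at e1
  · rwa [ext_lt e x hc, ext_lt e x hd] at e2

/-- at least half of the canonical words are good -/
theorem half_good {M W : ℕ} (e : Fin k) (hk : 2 ≤ k)
    (hT : 2 * (M * (4 * W + 2) ^ 3) ≤ (k - 1) * (k - 1)) :
    cnt (fun x : Fin M → Fin k => OK (Peak P) M x) ≤
      2 * cnt (fun x : Fin M → Fin k => Good P M W e x) := by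
  classical
  set n := cnt (fun x : Fin M → Fin k => OK (Peak P) M x) with hn
  -- the bad words
  have h1 : n ≤ cnt (fun x : Fin M → Fin k => Good P M W e x) +
      cnt (fun x : Fin M → Fin k => OK (Peak P) M x ∧ ¬ Good P M W e x) := by
    rw [hn, cnt_eq, cnt_eq, cnt_eq]
    refine le_trans (card_le_card ?_) (card_union_le _ _)
    intro x hx
    simp only [mem_filter, mem_univ, true_and, mem_union] at hx ⊢
    by_cases hg : Good P M W e x
    · exact Or.inl hg
    · exact Or.inr ⟨hx, hg⟩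
  have h2 : cnt (fun x : Fin M → Fin k => OK (Peak P) M x ∧ ¬ Good P M W e x) *
      ((k - 1) * (k - 1)) ≤ (quad P M W).card * n := by
    let B : (Σ _ : Fin M, Σ _ : Fin M, Σ _ : Fin M, Fin M) → Finset (Fin M → Fin k) := fun t =>
      univ.filter (fun x => OK (Peak P) M x ∧ x t.1 = x t.2.1 ∧ x t.2.2.1 = x t.2.2.2)
    let T := (quad P M W).filter (fun t => t.1 ≠ t.2.1 ∧ t.2.2.1 ≠ t.2.2.2 ∧
      ¬ (t.1 = t.2.2.1 ∧ t.2.1 = t.2.2.2) ∧ ¬ (t.1 = t.2.2.2 ∧ t.2.1 = t.2.2.1))
    have h3 : cnt (fun x : Fin M → Fin k => OK (Peak P) M x ∧ ¬ Good P M W e x) ≤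
        ∑ t ∈ T, (B t).card := by
      rw [cnt_eq]
      refine le_trans (card_le_card ?_) card_biUnion_le
      intro x hx
      simp only [mem_filter, mem_univ, true_and] at hx
      obtain ⟨t, ht, g1, g2, g3, g4, g5, g6⟩ := not_good P e x hx.1 hx.2
      rw [mem_biUnion]
      refine ⟨t, ?_, ?_⟩
      · simp only [T, mem_filter]
        exact ⟨ht, g1, g2, g3, g4⟩
      · simp only [B, mem_filter, mem_univ, true_and]
        exact ⟨hx.1, g5, g6⟩
    calc _ ≤ (∑ t ∈ T, (B t).card) * ((k - 1) * (k - 1)) := Nat.mul_le_mul_right _ h3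
      _ = ∑ t ∈ T, (B t).card * ((k - 1) * (k - 1)) := by rw [sum_mul]
      _ ≤ ∑ _t ∈ T, n := by
          apply sum_le_sum
          intro t ht
          simp only [T, mem_filter] at ht
          have := two_pairs (k := k) (Peak P) (peak_uniq P) t.1 t.2.1 t.2.2.1 t.2.2.2 ht.2.1
            ht.2.2.1 ht.2.2.2.1 ht.2.2.2.2
          rw [cnt_eq] at this
          exact this
      _ = T.card * n := by simp
      _ ≤ (quad P M W).card * n := Nat.mul_le_mul_right _ (card_filter_le _ _)
  have h3 : 2 * (quad P M W).card ≤ (k - 1) * (k - 1) :=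
    le_trans (Nat.mul_le_mul_left _ (card_quad_le P M W)) hT
  have hpos : 0 < (k - 1) * (k - 1) := Nat.mul_pos (by omega) (by omega)
  have h4 : 2 * cnt (fun x : Fin M → Fin k => OK (Peak P) M x ∧ ¬ Good P M W e x) ≤ n := by
    have h5 : (2 * cnt (fun x : Fin M → Fin k => OK (Peak P) M x ∧ ¬ Good P M W e x)) *
        ((k - 1) * (k - 1)) ≤ n * ((k - 1) * (k - 1)) := by
      calc _ = 2 * (cnt (fun x : Fin M → Fin k => OK (Peak P) M x ∧ ¬ Good P M W e x) *
            ((k - 1) * (k - 1))) := by ring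
        _ ≤ 2 * ((quad P M W).card * n) := Nat.mul_le_mul_left _ h2
        _ = (2 * (quad P M W).card) * n := by ring
        _ ≤ ((k - 1) * (k - 1)) * n := Nat.mul_le_mul_right _ h3
        _ = _ := by ring
    exact Nat.le_of_mul_le_mul_right h5 hpos
  omega

open Classical in
/-- the number of canonical words -/
theorem card_OK (C : ℕ → ℕ → Prop) (huniq : ∀ i r r', C r i → C r' i → r = r') (hk : 1 ≤ k)
    (M : ℕ) : (cnt (fun x : Fin M → Fin k => OK C M x) : ℝ) =
      (k : ℝ) ^ M * ((1 : ℝ) - 1 / k) ^ ((range M).filter (fun i => ∃ r, r < i ∧ C r i)).card := by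
  have hk0 : (k : ℝ) ≠ 0 := by
    have : 0 < k := by omega
    positivity
  induction M with
  | zero =>
    rw [cnt_OK_zero]
    simp
  | succ M ih =>
    rw [cnt_OK_succ C huniq, Nat.cast_mul, ih, range_add_one, filter_insert]
    unfold num
    split_ifs with h
    · rw [card_insert_of_notMem (by simp), Nat.cast_sub hk, Nat.cast_one, pow_succ, pow_succ]
      have h1 : (k : ℝ) - 1 = k * (1 - 1 / k) := by
        rw [mul_sub, mul_one, mul_one_div_cancel hk0]
      rw [h1]
      ring
    · rw [pow_succ]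
      ring

end

end Pool.Agent.R123.Shuf
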