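import Pool.Agent.R123.Shuf.Basic

/-!
# The number of shuffle squares is at most `(√k + √(k-1)) ^ (2 n)`
-/

set_option autoImplicit false

namespace Pool.Agent.R123.Shuf

open scoped BigOperators

section

variable {k : ℕ}

/-- the words of length `m` which can be read with the queue `q` at the beginning -/
def F (b : Prop) (q : List (Fin k)) (m : ℕ) : Set (List (Fin k)) := {w | w.length = m ∧ Acc b q w}

theorem finite_F (b : Prop) (q : List (Fin k)) (m : ℕ) : (F b q m).Finite :=
  (List.finite_length_eq (Fin k) m).subset fun _ h => h.1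

theorem F_zero (b : Prop) (q : List (Fin k)) (hq : q ≠ []) : F b q 0 = ∅ := by
  ext w
  simp only [F, Set.mem_ofPred_eq, Set.mem_empty_iff_false, iff_false, not_and]
  intro h1 h2
  rw [List.length_eq_zero_iff] at h1
  subst h1
  exact hq h2

theorem F_zero_le (b : Prop) (q : List (Fin k)) : (F b q 0).ncard ≤ 1 := by
  have h : F b q 0 ⊆ {[]} := by
    intro w hw
    exact List.length_eq_zero_iff.1 hw.1
  have := Set.ncard_le_ncard h (Set.finite_singleton _)
  rwa [Set.ncard_singleton] at this

/-- the words that begin with a letter put into the queue -/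
theorem ncard_step (b : Prop) (q : List (Fin k)) (m : ℕ) (P : Set (List (Fin k))) (hP : P.Finite)
    (h : ∀ a w, ¬ b → (∃ q', q = a :: q' ∧ Acc False q' w) → w.length = m → a :: w ∈ P) :
    (F b q (m + 1)).ncard ≤
      ∑ a : Fin k, (F (∃ q', q = a :: q') (q ++ [a]) m).ncard + P.ncard := by
  have h1 : F b q (m + 1) ⊆
      (⋃ a : Fin k, (List.cons a) '' F (∃ q', q = a :: q') (q ++ [a]) m) ∪ P := by
    intro w hw
    obtain ⟨hl, hacc⟩ := hw
    cases w with
    | nil => simp at hl
    | cons a w =>
      rw [List.length_cons, Nat.add_right_cancel_iff] at hl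
      rcases hacc with hacc | ⟨hb, hacc⟩
      · left
        rw [Set.mem_iUnion]
        exact ⟨a, w, ⟨hl, hacc⟩, rfl⟩
      · exact Or.inr (h a w hb hacc hl)
  have hfin : (⋃ a : Fin k, (List.cons a) '' F (∃ q', q = a :: q') (q ++ [a]) m).Finite :=
    Set.finite_iUnion fun a => (finite_F _ _ _).image _
  calc (F b q (m + 1)).ncard ≤ ((⋃ a : Fin k, (List.cons a) '' F (∃ q', q = a :: q') (q ++ [a]) m)
        ∪ P).ncard := Set.ncard_le_ncard h1 (hfin.union hP)
    _ ≤ (⋃ a : Fin k, (List.cons a) '' F (∃ q', q = a :: q') (q ++ [a]) m).ncard + P.ncard :=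
        Set.ncard_union_le _ _
    _ ≤ ∑ a : Fin k, ((List.cons a) '' F (∃ q', q = a :: q') (q ++ [a]) m).ncard + P.ncard :=
        Nat.add_le_add_right (Set.ncard_iUnion_le_of_fintype _) _
    _ ≤ _ := by
        apply Nat.add_le_add_right
        apply Finset.sum_le_sum
        intro a _
        exact Set.ncard_image_le (finite_F _ _ _)

theorem F_bound (hk : 1 ≤ k) (m : ℕ) : ∀ q : List (Fin k),
    ((F False q m).ncard : ℝ) * (√(k : ℝ)) ^ q.length ≤ (√(k : ℝ) + √((k : ℝ) - 1)) ^ m ∧
    (q ≠ [] → ((F True q m).ncard : ℝ) * (√(k : ℝ)) ^ q.length * (√(k : ℝ) + √((k : ℝ) - 1)) ≤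
      √((k : ℝ) - 1) * (√(k : ℝ) + √((k : ℝ) - 1)) ^ m) := by
  have hk1 : (1 : ℝ) ≤ k := by exact_mod_cast hk
  set μ : ℝ := √(k : ℝ) with hμ
  set ν : ℝ := √((k : ℝ) - 1) with hν
  have hμ0 : 0 < μ := Real.sqrt_pos.2 (by linarith)
  have hν0 : 0 ≤ ν := Real.sqrt_nonneg _
  have hμ2 : μ * μ = k := Real.mul_self_sqrt (by linarith)
  have hν2 : ν * ν = k - 1 := Real.mul_self_sqrt (by linarith)
  set l : ℝ := μ + ν with hl
  have hl0 : 0 < l := by positivity
  have hlm : l * (μ - ν) = 1 := by rw [hl]; nlinarith
  induction m with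
  | zero =>
    intro q
    refine ⟨?_, ?_⟩
    · by_cases hq : q = []
      · subst hq
        simp only [List.length_nil, pow_zero, mul_one]
        exact_mod_cast F_zero_le False ([] : List (Fin k))
      · rw [F_zero _ _ hq]
        simp
    · intro hq
      rw [F_zero _ _ hq]
      simp [hν0]
  | succ m ih =>
    intro q
    have hlm0 : 0 < l ^ m := by positivity
    cases q with
    | nil =>
      refine ⟨?_, fun h => absurd rfl h⟩
      have h1 := ncard_step False ([] : List (Fin k)) m ∅ Set.finite_empty (by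
        rintro a w - ⟨q', hq', -⟩
        cases hq')
      rw [Set.ncard_empty, add_zero] at h1
      have h2 : ∀ a : Fin k,
          ((F (∃ q', ([] : List (Fin k)) = a :: q') ([] ++ [a]) m).ncard : ℝ) * μ ≤ l ^ m := by
        intro a
        have h3 : (∃ q', ([] : List (Fin k)) = a :: q') = False := by simp
        rw [h3]
        simpa using (ih [a]).1
      have h3 : (∑ a : Fin k,
          ((F (∃ q', ([] : List (Fin k)) = a :: q') ([] ++ [a]) m).ncard : ℝ)) * μ ≤ k * l ^ m := by
        rw [Finset.sum_mul]
        calc _ ≤ ∑ _a : Fin k, l ^ m := Finset.sum_le_sum fun a _ => h2 a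
          _ = k * l ^ m := by simp
      have h4 : ((F False ([] : List (Fin k)) (m + 1)).ncard : ℝ) ≤ ∑ a : Fin k,
          ((F (∃ q', ([] : List (Fin k)) = a :: q') ([] ++ [a]) m).ncard : ℝ) := by
        exact_mod_cast h1
      have h5 : ((F False ([] : List (Fin k)) (m + 1)).ncard : ℝ) * μ ≤ μ * l ^ m * μ := by
        calc _ ≤ (∑ a : Fin k,
          ((F (∃ q', ([] : List (Fin k)) = a :: q') ([] ++ [a]) m).ncard : ℝ)) * μ :=
              mul_le_mul_of_nonneg_right h4 hμ0.le
          _ ≤ k * l ^ m := h3
          _ = μ * l ^ m * μ := by rw [← hμ2]; ring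
      have h6 := le_of_mul_le_mul_right h5 hμ0
      simp only [List.length_nil, pow_zero, mul_one]
      calc _ ≤ μ * l ^ m := h6
        _ ≤ l * l ^ m := by
          apply mul_le_mul_of_nonneg_right _ hlm0.le
          rw [hl]; linarith
        _ = l ^ (m + 1) := by ring
    | cons c q =>
      -- the sum over the letters put into the queue
      have h2 : ∀ a : Fin k,
          ((F (∃ q', c :: q = a :: q') (c :: q ++ [a]) m).ncard : ℝ) * μ ^ (q.length + 2) * l ≤
            if a = c then ν * l ^ m else l * l ^ m := by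
        intro a
        have hlen : (c :: q ++ [a]).length = q.length + 2 := by simp
        split_ifs with hac
        · subst hac
          have h3 : (∃ q', a :: q = a :: q') = True := by simp
          have h4 := (ih (a :: q ++ [a])).2 (by simp)
          rw [hlen] at h4
          rw [h3]
          exact h4
        · have h3 : (∃ q', c :: q = a :: q') = False := by simp [Ne.symm hac]
          have h4 := (ih (c :: q ++ [a])).1
          rw [hlen] at h4
          rw [h3]
          calc _ ≤ l ^ m * l := mul_le_mul_of_nonneg_right h4 hl0.le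
            _ = _ := by ring
      have h3 : (∑ a : Fin k,
          ((F (∃ q', c :: q = a :: q') (c :: q ++ [a]) m).ncard : ℝ)) * μ ^ (q.length + 2) * l ≤
            ν * l ^ m + (k - 1) * (l * l ^ m) := by
        rw [Finset.sum_mul, Finset.sum_mul]
        calc _ ≤ ∑ a : Fin k, (if a = c then ν * l ^ m else l * l ^ m) :=
              Finset.sum_le_sum fun a _ => h2 a
          _ = _ := by
            rw [Finset.sum_ite, Finset.sum_const, Finset.sum_const, Finset.filter_eq',
              if_pos (Finset.mem_univ c), Finset.card_singleton, Finset.filter_ne',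
              Finset.card_erase_of_mem (Finset.mem_univ c), Finset.card_univ, Fintype.card_fin,
              one_smul, nsmul_eq_mul, Nat.cast_sub hk, Nat.cast_one]
      -- divide
      have h4 : (∑ a : Fin k,
          ((F (∃ q', c :: q = a :: q') (c :: q ++ [a]) m).ncard : ℝ)) * μ ^ (q.length + 1) ≤
            ν * l ^ m := by
        have h5 : ν * l ^ m + (k - 1) * (l * l ^ m) = ν * l ^ m * (μ * l) := by
          have : (1 : ℝ) = l * μ - l * ν := by rw [← hlm]; ring
          have h6 : ν * l ^ m = ν * l ^ m * (l * μ - l * ν) := by rw [← this, mul_one]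
          calc ν * l ^ m + (k - 1) * (l * l ^ m)
              = ν * l ^ m * (l * μ - l * ν) + (k - 1) * (l * l ^ m) := by rw [← h6]
            _ = _ := by rw [← hν2]; ring
        rw [h5] at h3
        have h7 : 0 < μ * l := by positivity
        have h8 : (∑ a : Fin k,
          ((F (∃ q', c :: q = a :: q') (c :: q ++ [a]) m).ncard : ℝ)) * μ ^ (q.length + 1) * (μ * l)
            ≤ ν * l ^ m * (μ * l) := by
          calc _ = (∑ a : Fin k,
            ((F (∃ q', c :: q = a :: q') (c :: q ++ [a]) m).ncard : ℝ)) * μ ^ (q.length + 2) * l := by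
                ring
            _ ≤ _ := h3
        exact le_of_mul_le_mul_right h8 h7
      refine ⟨?_, ?_⟩
      · have h1 := ncard_step False (c :: q) m ((List.cons c) '' F False q m)
          ((finite_F _ _ _).image _) (by
          rintro a w - ⟨q', hq', hw⟩ hwl
          rw [List.cons.injEq] at hq'
          obtain ⟨rfl, rfl⟩ := hq'
          exact ⟨w, ⟨hwl, hw⟩, rfl⟩)
        have h1' : ((F False (c :: q) (m + 1)).ncard : ℝ) ≤ ∑ a : Fin k,
            ((F (∃ q', c :: q = a :: q') (c :: q ++ [a]) m).ncard : ℝ) + (F False q m).ncard := by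
          have h9 : ((List.cons c) '' F False q m).ncard ≤ (F False q m).ncard :=
            Set.ncard_image_le (finite_F _ _ _)
          exact_mod_cast h1.trans (Nat.add_le_add_left h9 _)
        have h5 := (ih q).1
        rw [List.length_cons]
        calc _ ≤ (∑ a : Fin k, ((F (∃ q', c :: q = a :: q') (c :: q ++ [a]) m).ncard : ℝ) +
              (F False q m).ncard) * μ ^ (q.length + 1) :=
              mul_le_mul_of_nonneg_right h1' (by positivity)
          _ = (∑ a : Fin k, ((F (∃ q', c :: q = a :: q') (c :: q ++ [a]) m).ncard : ℝ)) *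
              μ ^ (q.length + 1) + ((F False q m).ncard * μ ^ q.length) * μ := by ring
          _ ≤ ν * l ^ m + l ^ m * μ := add_le_add h4 (mul_le_mul_of_nonneg_right h5 hμ0.le)
          _ = l ^ (m + 1) := by rw [pow_succ, hl]; ring
      · intro _
        have h1 := ncard_step True (c :: q) m ∅ Set.finite_empty (by
          rintro a w hb
          exact absurd trivial hb)
        rw [Set.ncard_empty, add_zero] at h1
        have h1' : ((F True (c :: q) (m + 1)).ncard : ℝ) ≤ ∑ a : Fin k,
            ((F (∃ q', c :: q = a :: q') (c :: q ++ [a]) m).ncard : ℝ) := by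
          exact_mod_cast h1
        rw [List.length_cons]
        calc _ ≤ (∑ a : Fin k, ((F (∃ q', c :: q = a :: q') (c :: q ++ [a]) m).ncard : ℝ)) *
              μ ^ (q.length + 1) * l :=
              mul_le_mul_of_nonneg_right (mul_le_mul_of_nonneg_right h1' (by positivity)) hl0.le
          _ ≤ ν * l ^ m * l := mul_le_mul_of_nonneg_right h4 hl0.le
          _ = ν * l ^ (m + 1) := by ring

/-- the upper bound -/
theorem ncard_S_le (hk : 1 ≤ k) (n : ℕ) :
    ((S k n).ncard : ℝ) ≤ (√(k : ℝ) + √((k : ℝ) - 1)) ^ (2 * n) := by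
  have h1 : S k n ⊆ F False [] (2 * n) := fun w hw => ⟨hw.1, hw.2.acc⟩
  have h2 : ((S k n).ncard : ℝ) ≤ (F False ([] : List (Fin k)) (2 * n)).ncard := by
    exact_mod_cast Set.ncard_le_ncard h1 (finite_F _ _ _)
  have h3 := (F_bound hk (2 * n) []).1
  simp only [List.length_nil, pow_zero, mul_one] at h3
  exact h2.trans h3

theorem rho_le (hk : 1 ≤ k) : (√(k : ℝ) + √((k : ℝ) - 1)) ^ 2 ≤ 4 * k - 2 := by
  have hk1 : (1 : ℝ) ≤ k := by exact_mod_cast hk
  have h1 : √(k : ℝ) * √(k : ℝ) = k := Real.mul_self_sqrt (by linarith)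
  have h2 : √((k : ℝ) - 1) * √((k : ℝ) - 1) = k - 1 := Real.mul_self_sqrt (by linarith)
  nlinarith [sq_nonneg (√(k : ℝ) - √((k : ℝ) - 1))]

end

end Pool.Agent.R123.Shuf
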