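import Pool.Agent.R123.Shuf.Lower
import Pool.Agent.R123.Shuf.Upper

/-!
# The growth rate of the number of shuffle squares
-/

set_option autoImplicit false

namespace Pool.Agent.R123.Shuf

open Filter Topology

section

variable {k : ℕ}

theorem S_nonempty (hk : 1 ≤ k) (n : ℕ) : (S k n).Nonempty := by
  refine ⟨List.replicate (2 * n) ⟨0, by omega⟩, by simp, List.replicate n ⟨0, by omega⟩, ?_⟩
  induction n with
  | zero => exact Interleave.nil
  | succ n ih =>
    rw [show 2 * (n + 1) = 2 * n + 1 + 1 by ring]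
    exact (ih.right _).left _

theorem ncard_pos (hk : 1 ≤ k) (n : ℕ) : 0 < (S k n).ncard :=
  (Set.ncard_pos (finite_S k n)).2 (S_nonempty hk n)

theorem supermul (m n : ℕ) : (S k m).ncard * (S k n).ncard ≤ (S k (m + n)).ncard := by
  rw [← Set.ncard_prod]
  refine Set.ncard_le_ncard_of_injOn (fun t => t.1 ++ t.2) ?_ ?_ (finite_S k (m + n))
  · rintro ⟨w, w'⟩ ⟨h, h'⟩
    refine ⟨?_, h.2.append h'.2⟩
    have h1 := h.1
    have h2 := h'.1
    simp only at h1 h2
    simp only [List.length_append, h1, h2]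
    ring
  · rintro ⟨w, w'⟩ ⟨h, h'⟩ ⟨v, v'⟩ ⟨g, g'⟩ heq
    have h1 := h.1
    have g1 := g.1
    simp only at h1 g1 heq
    obtain ⟨e1, e2⟩ := List.append_inj heq (by rw [h1, g1])
    rw [e1, e2]

/-- minus the logarithm of the number of shuffle squares -/
noncomputable def u (k n : ℕ) : ℝ := - Real.log (S k n).ncard

theorem subadd (hk : 1 ≤ k) : Subadditive (u k) := by
  intro m n
  unfold u
  have h1 : (0 : ℝ) < (S k m).ncard := by exact_mod_cast ncard_pos hk m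
  have h2 : (0 : ℝ) < (S k n).ncard := by exact_mod_cast ncard_pos hk n
  have h3 : ((S k m).ncard : ℝ) * (S k n).ncard ≤ (S k (m + n)).ncard := by
    exact_mod_cast supermul m n
  have h4 := Real.log_le_log (mul_pos h1 h2) h3
  rw [Real.log_mul h1.ne' h2.ne'] at h4
  linarith

theorem log_le (hk : 1 ≤ k) (n : ℕ) :
    Real.log (S k n).ncard ≤ n * Real.log ((√(k : ℝ) + √((k : ℝ) - 1)) ^ 2) := by
  have h1 : (0 : ℝ) < (S k n).ncard := by exact_mod_cast ncard_pos hk n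
  have h2 := Real.log_le_log h1 (ncard_S_le hk n)
  rw [pow_mul, Real.log_pow] at h2
  exact h2

theorem bdd (hk : 1 ≤ k) : BddBelow (Set.range fun n : ℕ => u k n / n) := by
  refine ⟨- |Real.log ((√(k : ℝ) + √((k : ℝ) - 1)) ^ 2)|, ?_⟩
  rintro _ ⟨n, rfl⟩
  rcases Nat.eq_zero_or_pos n with rfl | hn
  · simp
  · have hn' : (0 : ℝ) < n := by exact_mod_cast hn
    simp only
    rw [le_div_iff₀ hn']
    have h1 := log_le hk n
    have h2 := le_abs_self (Real.log ((√(k : ℝ) + √((k : ℝ) - 1)) ^ 2))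
    unfold u
    nlinarith

open Classical in
/-- the growth rate -/
noncomputable def L (k : ℕ) : ℝ := if hk : 1 ≤ k then Real.exp (-(subadd hk).lim) else 0

theorem tendsto_L (hk : 1 ≤ k) :
    Tendsto (fun n : ℕ => ((S k n).ncard : ℝ) ^ (1 / (n : ℝ))) atTop (𝓝 (L k)) := by
  have h1 := (subadd hk).tendsto_lim (bdd hk)
  have h2 : Tendsto (fun n : ℕ => Real.exp (-(u k n / n))) atTop (𝓝 (L k)) := by
    unfold L
    rw [dif_pos hk]
    exact (Real.continuous_exp.tendsto _).comp h1.neg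
  refine h2.congr fun n => ?_
  have h3 : (0 : ℝ) < (S k n).ncard := by exact_mod_cast ncard_pos hk n
  rw [Real.rpow_def_of_pos h3]
  congr 1
  unfold u
  ring

theorem L_le (hk : 1 ≤ k) : L k ≤ 4 * k - 2 := by
  refine le_trans ?_ (rho_le hk)
  refine le_of_tendsto (tendsto_L hk) ?_
  filter_upwards [eventually_ge_atTop 1] with n hn
  have hn' : (0 : ℝ) < n := by exact_mod_cast hn
  have h1 : (0 : ℝ) < (S k n).ncard := by exact_mod_cast ncard_pos hk n
  have h2 : (0 : ℝ) < (√(k : ℝ) + √((k : ℝ) - 1)) ^ 2 := by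
    have hk1 : (1 : ℝ) ≤ k := by exact_mod_cast hk
    have : 0 < √(k : ℝ) := Real.sqrt_pos.2 (by linarith)
    positivity
  rw [Real.rpow_def_of_pos h1]
  calc Real.exp (Real.log (S k n).ncard * (1 / n))
      ≤ Real.exp (Real.log ((√(k : ℝ) + √((k : ℝ) - 1)) ^ 2)) := by
        apply Real.exp_le_exp.2
        rw [mul_one_div, div_le_iff₀ hn']
        have := log_le hk n
        linarith
    _ = _ := Real.exp_log h2

theorem L_ge (hk : 1 ≤ k) {M : ℕ} (hM : 0 < M) :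
    Real.exp (Real.log (S k M).ncard / M) ≤ L k := by
  unfold L
  rw [dif_pos hk]
  apply Real.exp_le_exp.2
  have h1 := (subadd hk).lim_le_div (bdd hk) hM.ne'
  have h2 : u k M / M = -(Real.log (S k M).ncard / M) := by
    unfold u
    rw [neg_div]
  rw [h2] at h1
  linarith

/-- an explicit lower bound for the growth rate -/
theorem L_lower {M R W : ℕ} (hk : 2 ≤ k) (hM : 2 ≤ M) (hR : 2 * M ^ 3 * (M + 1) ≤ 2 ^ R)
    (hW : (R + 2) * (R + 2) ≤ W) (hT : 2 * (M * (4 * W + 2) ^ 3) ≤ (k - 1) * (k - 1)) :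
    4 * (k : ℝ) * (1 - (1 / 2 + 2 / M) * (1 / (k - 1)) - Real.log (8 * (M * (M + 1))) / M) ≤ L k := by
  have hk2 : (2 : ℝ) ≤ k := by exact_mod_cast hk
  have hM2 : (2 : ℝ) ≤ M := by exact_mod_cast hM
  have hM0 : (0 : ℝ) < M := by linarith
  have h1 := lower_bound hk hM hR hW hT
  set A : ℝ := (1 / 8 : ℝ) * (4 : ℝ) ^ M / (M * (M + 1)) * (k : ℝ) ^ M *
      Real.exp (((M : ℝ) / 2 + 2) * Real.log (1 - 1 / k)) with hA
  have hA0 : 0 < A := by positivity
  have hlogA : Real.log A = M * Real.log (4 * k) + (M / 2 + 2) * Real.log (1 - 1 / k) -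
      Real.log (8 * (M * (M + 1))) := by
    have e1 : A = (4 * (k : ℝ)) ^ M * Real.exp (((M : ℝ) / 2 + 2) * Real.log (1 - 1 / k)) /
        (8 * (M * (M + 1))) := by
      rw [hA, mul_pow]
      field_simp
    rw [e1, Real.log_div (by positivity) (by positivity), Real.log_mul (by positivity)
      (Real.exp_ne_zero _), Real.log_pow, Real.log_exp]
  have h2 : Real.log A ≤ Real.log (S k M).ncard := Real.log_le_log hA0 h1
  have h3 := L_ge (k := k) (by omega) (M := M) (by omega)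
  refine le_trans ?_ h3
  have hlog : - (1 / ((k : ℝ) - 1)) ≤ Real.log (1 - 1 / k) := by
    have h4 : (0 : ℝ) < 1 - 1 / k := by
      rw [sub_pos, div_lt_one (by linarith)]
      linarith
    have h5 := Real.one_sub_inv_le_log_of_pos h4
    have h6 : 1 - (1 - 1 / (k : ℝ))⁻¹ = - (1 / ((k : ℝ) - 1)) := by
      have : (k : ℝ) - 1 ≠ 0 := by linarith
      have h7 : (k : ℝ) ≠ 0 := by linarith
      rw [one_sub_div h7, inv_div]
      field_simp
      ring
    rwa [h6] at h5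
  set z : ℝ := (1 / 2 + 2 / M) * Real.log (1 - 1 / k) - Real.log (8 * (M * (M + 1))) / M with hz
  have h4 : Real.log A / M = Real.log (4 * k) + z := by
    rw [hlogA, hz]
    field_simp
    ring
  calc 4 * (k : ℝ) * (1 - (1 / 2 + 2 / M) * (1 / (k - 1)) - Real.log (8 * (M * (M + 1))) / M)
      ≤ 4 * k * (z + 1) := by
        apply mul_le_mul_of_nonneg_left _ (by linarith)
        have h5 : (1 / 2 + 2 / (M : ℝ)) * (- (1 / ((k : ℝ) - 1))) ≤
            (1 / 2 + 2 / M) * Real.log (1 - 1 / k) :=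
          mul_le_mul_of_nonneg_left hlog (by positivity)
        rw [hz]
        linarith
    _ ≤ 4 * k * Real.exp z := mul_le_mul_of_nonneg_left (Real.add_one_le_exp z) (by linarith)
    _ = Real.exp (Real.log (4 * k) + z) := by
        rw [Real.exp_add, Real.exp_log (by linarith)]
    _ = Real.exp (Real.log A / M) := by rw [h4]
    _ ≤ Real.exp (Real.log (S k M).ncard / M) := by
        apply Real.exp_le_exp.2
        exact div_le_div_of_nonneg_right h2 hM0.le

end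

/-! ## The limit -/

/-- polynomials grow more slowly than powers -/
theorem exists_j0 : ∃ j0 : ℕ, ∀ j, j0 ≤ j → 8 * (4 * ((16 * j + 20) * (16 * j + 20)) + 2) ^ 3 ≤ 2 ^ j := by
  have h1 : Tendsto (fun n : ℕ => ((n : ℝ) ^ 6) / (2 : ℝ) ^ n) atTop (𝓝 0) :=
    tendsto_pow_const_div_const_pow_of_one_lt 6 (by norm_num)
  have h2 : ∀ᶠ n : ℕ in atTop, ((n : ℝ) ^ 6) / (2 : ℝ) ^ n < 1 / (8 * 5186 ^ 3) :=
    h1.eventually (gt_mem_nhds (by norm_num))
  obtain ⟨N, hN⟩ := eventually_atTop.1 h2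
  refine ⟨N + 1, fun j hj => ?_⟩
  have h3 := hN j (by omega)
  rw [div_lt_div_iff₀ (by positivity) (by norm_num)] at h3
  have h4 : j ^ 6 * (8 * 5186 ^ 3) < 1 * 2 ^ j := by exact_mod_cast h3
  have h5 : 16 * j + 20 ≤ 36 * j := by omega
  have h6 : (16 * j + 20) * (16 * j + 20) ≤ (36 * j) * (36 * j) := Nat.mul_le_mul h5 h5
  have h7 : 4 * ((16 * j + 20) * (16 * j + 20)) + 2 ≤ 5186 * (j * j) := by nlinarith
  have h8 := Nat.pow_le_pow_left h7 3
  calc 8 * (4 * ((16 * j + 20) * (16 * j + 20)) + 2) ^ 3 ≤ 8 * (5186 * (j * j)) ^ 3 :=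
        Nat.mul_le_mul_left _ h8
    _ = j ^ 6 * (8 * 5186 ^ 3) := by ring
    _ ≤ 2 ^ j := by omega

/-- the conditions on the parameters hold for large `k` -/
theorem exists_k0 : ∃ k0 : ℕ, ∀ k, k0 ≤ k → 2 ≤ k ∧ 2 ≤ Nat.sqrt k ∧
    2 * (k * Nat.sqrt k) ^ 3 * (k * Nat.sqrt k + 1) ≤ 2 ^ (8 * Nat.log 2 k + 10) ∧
    2 * ((k * Nat.sqrt k) * (4 * ((8 * Nat.log 2 k + 10 + 2) * (8 * Nat.log 2 k + 10 + 2)) + 2) ^ 3) ≤
      (k - 1) * (k - 1) := by
  obtain ⟨j0, hj0⟩ := exists_j0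
  refine ⟨4 ^ (j0 + 1), fun k hk => ?_⟩
  have hk4 : 4 ≤ k := by
    have : 4 ^ 1 ≤ 4 ^ (j0 + 1) := Nat.pow_le_pow_right (by norm_num) (by omega)
    omega
  set s := Nat.sqrt k with hs
  set l := Nat.log 2 k with hl
  have hs1 : s * s ≤ k := Nat.sqrt_le k
  have hs2 : 2 ≤ s := by
    rw [hs, Nat.le_sqrt]
    omega
  have hsk : s ≤ k := Nat.sqrt_le_self k
  have hl1 : k < 2 ^ (l + 1) := Nat.lt_pow_succ_log_self (by norm_num) k
  have hl2 : 2 ^ l ≤ k := Nat.pow_log_le_self 2 (by omega)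
  have hl3 : 2 * (j0 + 1) ≤ l := by
    rw [hl]
    apply Nat.le_log_of_pow_le (by norm_num)
    rw [pow_mul]
    exact hk
  refine ⟨by omega, hs2, ?_, ?_⟩
  · have hM : k * s ≤ k * k := Nat.mul_le_mul_left _ hsk
    have h1 : k * s + 1 ≤ 2 * (k * k) := by
      have : 1 ≤ k * k := Nat.mul_pos (by omega) (by omega)
      omega
    have h2 : (k * s) ^ 3 ≤ (k * k) ^ 3 := Nat.pow_le_pow_left hM 3
    have h3 : k ^ 8 ≤ (2 ^ (l + 1)) ^ 8 := Nat.pow_le_pow_left hl1.le 8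
    calc 2 * (k * s) ^ 3 * (k * s + 1) ≤ 2 * (k * k) ^ 3 * (2 * (k * k)) :=
          Nat.mul_le_mul (Nat.mul_le_mul_left _ h2) h1
      _ = 4 * k ^ 8 := by ring
      _ ≤ 4 * (2 ^ (l + 1)) ^ 8 := Nat.mul_le_mul_left _ h3
      _ = 2 ^ (8 * l + 10) := by
          rw [← pow_mul, show (4 : ℕ) = 2 ^ 2 by norm_num, ← pow_add]
          congr 1
          ring
  · have h1 := hj0 (l / 2) (by omega)
    have h2 : 2 ^ (l / 2) ≤ s := by
      rw [hs, Nat.le_sqrt, ← pow_add]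
      exact le_trans (Nat.pow_le_pow_right (by norm_num) (by omega)) hl2
    have h3 : 8 * l + 10 + 2 ≤ 16 * (l / 2) + 20 := by omega
    have h4 : (8 * l + 10 + 2) * (8 * l + 10 + 2) ≤ (16 * (l / 2) + 20) * (16 * (l / 2) + 20) :=
      Nat.mul_le_mul h3 h3
    have h5 : (4 * ((8 * l + 10 + 2) * (8 * l + 10 + 2)) + 2) ^ 3 ≤
        (4 * ((16 * (l / 2) + 20) * (16 * (l / 2) + 20)) + 2) ^ 3 :=
      Nat.pow_le_pow_left (by omega) 3
    have h6 : 8 * (4 * ((8 * l + 10 + 2) * (8 * l + 10 + 2)) + 2) ^ 3 ≤ s :=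
      (Nat.mul_le_mul_left 8 h5).trans (h1.trans h2)
    have h7 : 4 * (2 * ((k * s) * (4 * ((8 * l + 10 + 2) * (8 * l + 10 + 2)) + 2) ^ 3)) ≤
        k * k := by
      calc 4 * (2 * ((k * s) * (4 * ((8 * l + 10 + 2) * (8 * l + 10 + 2)) + 2) ^ 3))
          = k * s * (8 * (4 * ((8 * l + 10 + 2) * (8 * l + 10 + 2)) + 2) ^ 3) := by ring
        _ ≤ k * s * s := Nat.mul_le_mul_left _ h6
        _ = k * (s * s) := by ring
        _ ≤ k * k := Nat.mul_le_mul_left _ hs1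
    have h8 : k * k ≤ 4 * ((k - 1) * (k - 1)) := by
      obtain ⟨c, rfl⟩ : ∃ c, k = c + 2 := ⟨k - 2, by omega⟩
      rw [show c + 2 - 1 = c + 1 by omega]
      nlinarith
    exact Nat.le_of_mul_le_mul_left (h7.trans h8) (by norm_num)

/-- the error bound -/
theorem error_bound : ∃ k0 : ℕ, ∀ k, k0 ≤ k →
    4 * (k : ℝ) - 2 - L k ≤ 20 / k + 80 * (Real.log ((Nat.sqrt k : ℝ) + 1) / ((Nat.sqrt k : ℝ) + 1)) := by
  obtain ⟨k0, hk0⟩ := exists_k0
  refine ⟨k0, fun k hk => ?_⟩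
  obtain ⟨hk2, hs2, hR, hT⟩ := hk0 k hk
  have h1 := L_lower (k := k) (M := k * Nat.sqrt k) (R := 8 * Nat.log 2 k + 10)
    (W := (8 * Nat.log 2 k + 10 + 2) * (8 * Nat.log 2 k + 10 + 2)) hk2 (by nlinarith) hR le_rfl hT
  set s := Nat.sqrt k with hs
  have hkR : (2 : ℝ) ≤ k := by exact_mod_cast hk2
  have hsR : (2 : ℝ) ≤ s := by exact_mod_cast hs2
  have hk1 : (k : ℝ) ≤ (s + 1) * (s + 1) := by
    have := Nat.lt_succ_sqrt k
    have h2 : k ≤ (s + 1) * (s + 1) := le_of_lt this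
    exact_mod_cast h2
  have hcast : ((k * s : ℕ) : ℝ) = k * s := by push_cast; ring
  rw [hcast] at h1
  have hlog : Real.log (8 * ((k : ℝ) * s * (k * s + 1))) ≤ 10 * Real.log (s + 1) := by
    rw [show (10 : ℝ) * Real.log (s + 1) = Real.log ((s + 1) ^ 10) by
      rw [Real.log_pow]; norm_num]
    apply Real.log_le_log (by positivity)
    have h2 : (k : ℝ) * s ≤ (s + 1) ^ 3 := by
      calc (k : ℝ) * s ≤ ((s + 1) * (s + 1)) * (s + 1) :=
            mul_le_mul hk1 (by linarith) (by linarith) (by positivity)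
        _ = _ := by ring
    have h3 : (1 : ℝ) ≤ (s + 1) ^ 3 := one_le_pow₀ (by linarith)
    have h4 : (16 : ℝ) ≤ (s + 1) ^ 4 := by
      calc (16 : ℝ) = 2 ^ 4 := by norm_num
        _ ≤ (s + 1) ^ 4 := pow_le_pow_left₀ (by norm_num) (by linarith) 4
    have h5 : (k : ℝ) * s + 1 ≤ 2 * (s + 1) ^ 3 := by linarith
    calc 8 * ((k : ℝ) * s * (k * s + 1)) ≤ 8 * ((s + 1) ^ 3 * (2 * (s + 1) ^ 3)) := by
          apply mul_le_mul_of_nonneg_left _ (by norm_num)
          exact mul_le_mul h2 h5 (by positivity) (by positivity)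
      _ = 16 * (s + 1) ^ 6 := by ring
      _ ≤ (s + 1) ^ 4 * (s + 1) ^ 6 := mul_le_mul_of_nonneg_right h4 (by positivity)
      _ = _ := by ring
  have hlog0 : 0 ≤ Real.log ((s : ℝ) + 1) := Real.log_nonneg (by linarith)
  -- the last term
  have h2 : 4 * (k : ℝ) * (Real.log (8 * ((k : ℝ) * s * (k * s + 1))) / (k * s)) ≤
      80 * (Real.log ((s : ℝ) + 1) / ((s : ℝ) + 1)) := by
    calc 4 * (k : ℝ) * (Real.log (8 * ((k : ℝ) * s * (k * s + 1))) / (k * s))
        ≤ 4 * (k : ℝ) * (10 * Real.log (s + 1) / (k * s)) := by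
          apply mul_le_mul_of_nonneg_left _ (by linarith)
          exact div_le_div_of_nonneg_right hlog (by positivity)
      _ = 40 * (Real.log (s + 1) / s) := by field_simp; ring
      _ ≤ 40 * (2 * (Real.log ((s : ℝ) + 1) / ((s : ℝ) + 1))) := by
          apply mul_le_mul_of_nonneg_left _ (by norm_num)
          rw [← mul_div_assoc, div_le_div_iff₀ (by linarith) (by linarith)]
          nlinarith
      _ = _ := by ring
  -- the middle term
  have h3 : 4 * (k : ℝ) * ((1 / 2 + 2 / (k * s)) * (1 / (k - 1))) ≤ 2 + 20 / k := by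
    have h4 : (2 : ℝ) / (k * s) ≤ 1 / k := by
      rw [div_le_div_iff₀ (by positivity) (by linarith)]
      nlinarith
    have h5 : 4 * (k : ℝ) * ((1 / 2 + 2 / (k * s)) * (1 / (k - 1))) ≤
        4 * k * ((1 / 2 + 1 / k) * (1 / (k - 1))) := by
      apply mul_le_mul_of_nonneg_left _ (by linarith)
      apply mul_le_mul_of_nonneg_right _ (by
        apply div_nonneg zero_le_one; linarith)
      linarith
    refine h5.trans ?_
    have hk1' : (0 : ℝ) < (k : ℝ) - 1 := by linarith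
    have e1 : 4 * (k : ℝ) * ((1 / 2 + 1 / k) * (1 / (k - 1))) = (2 * k + 4) / (k - 1) := by
      field_simp
      ring
    have e2 : 2 + 20 / (k : ℝ) = (2 * k + 20) / k := by
      field_simp
    rw [e1, e2, div_le_div_iff₀ hk1' (by linarith)]
    nlinarith
  have h4 : 4 * (k : ℝ) * (1 - (1 / 2 + 2 / (k * s)) * (1 / (k - 1)) -
      Real.log (8 * ((k : ℝ) * s * (k * s + 1))) / (k * s)) =
      4 * k - 4 * (k : ℝ) * ((1 / 2 + 2 / (k * s)) * (1 / (k - 1))) -
        4 * (k : ℝ) * (Real.log (8 * ((k : ℝ) * s * (k * s + 1))) / (k * s)) := by ring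
  rw [h4] at h1
  linarith

theorem tendsto_sqrt : Tendsto Nat.sqrt atTop atTop := by
  rw [tendsto_atTop_atTop]
  intro b
  refine ⟨b * b, fun a ha => ?_⟩
  rw [Nat.le_sqrt]
  exact ha

/-- the main result -/
theorem tendsto_main : Tendsto (fun k : ℕ => 4 * (k : ℝ) - 2 - L k) atTop (𝓝 0) := by
  obtain ⟨k0, hk0⟩ := error_bound
  have h1 : Tendsto (fun k : ℕ => (20 : ℝ) / k) atTop (𝓝 0) :=
    tendsto_const_div_atTop_nhds_zero_nat 20
  have h2 : Tendsto (fun k : ℕ => Real.log ((Nat.sqrt k : ℝ) + 1) / ((Nat.sqrt k : ℝ) + 1))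
      atTop (𝓝 0) := by
    have h3 : Tendsto (fun x : ℝ => Real.log x / x) atTop (𝓝 0) :=
      Real.isLittleO_log_id_atTop.tendsto_div_nhds_zero
    have h4 : Tendsto (fun k : ℕ => (Nat.sqrt k : ℝ) + 1) atTop atTop :=
      tendsto_atTop_add_const_right _ _ (tendsto_natCast_atTop_atTop.comp tendsto_sqrt)
    exact h3.comp h4
  have h3 : Tendsto (fun k : ℕ => (20 : ℝ) / k +
      80 * (Real.log ((Nat.sqrt k : ℝ) + 1) / ((Nat.sqrt k : ℝ) + 1))) atTop (𝓝 0) := by
    have := h1.add (h2.const_mul 80)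
    simpa using this
  refine squeeze_zero' ?_ ?_ h3
  · filter_upwards [eventually_ge_atTop 1] with k hk
    have := L_le hk
    linarith
  · filter_upwards [eventually_ge_atTop k0] with k hk
    exact hk0 k hk

end Pool.Agent.R123.Shuf
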