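import Pool.Agent.R123.Shuf.Dyck

/-!
# A lower bound for the number of shuffle squares of a given length
-/

set_option autoImplicit false

namespace Pool.Agent.R123.Shuf

open Finset

section

variable {k M R W : ℕ}

/-- good pairs give different words -/
theorem sum_good_le (hW : (R + 2) * (R + 2) ≤ W) (e : Fin k) :
    ∑ w ∈ B M R, cnt (fun x : Fin M → Fin k =>
      Good (toParse (bet w.1.toList) M (balanced_bet w.1 w.2)) M W e x) ≤ (S k M).ncard := by
  classical
  simp only [cnt_eq]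
  rw [← card_sigma, Set.ncard_eq_toFinset_card _ (finite_S k M)]
  apply card_le_card_of_injOn
    (fun t => (List.range (2 * M)).map (wd (bet t.1.1.toList) (ext e t.2)))
  · intro t _
    rw [mem_coe, Set.Finite.mem_toFinset]
    exact mem_S (balanced_bet t.1.1 t.1.2) _
  · rintro ⟨w, x⟩ ht ⟨w', x'⟩ ht' heq
    simp only [coe_sigma, Set.mem_sigma_iff, mem_coe, mem_filter, mem_univ, true_and, B] at ht ht'
    have h1 : ∀ p, p < 2 * M → wd (bet w.1.toList) (ext e x) p = wd (bet w'.1.toList) (ext e x') p := by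
      intro p hp
      have h2 : ((List.range (2 * M)).map (wd (bet w.1.toList) (ext e x)))[p]? =
          ((List.range (2 * M)).map (wd (bet w'.1.toList) (ext e x')))[p]? := by
        have h3 : (List.range (2 * M)).map (wd (bet w.1.toList) (ext e x)) =
          (List.range (2 * M)).map (wd (bet w'.1.toList) (ext e x')) := heq
        rw [h3]
      simpa [hp] using h2
    obtain ⟨h2, h3⟩ := unique_parse hW (balanced_bet w.1 w.2) (balanced_bet w'.1 w'.2) ht.1 ht'.1
      ht.2 ht'.2 h1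
    have h4 := bet_inj w w' h2
    subst h4
    subst h3
    rfl

theorem catalan_rec (m : ℕ) : (m + 2) * catalan (m + 1) = 2 * ((2 * m + 1) * catalan m) := by
  have h1 := succ_mul_catalan_eq_centralBinom m
  have h2 := succ_mul_catalan_eq_centralBinom (m + 1)
  have h3 := Nat.succ_mul_centralBinom_succ m
  rw [← h1, ← h2] at h3
  have h4 : (m + 1) * ((m + 2) * catalan (m + 1)) = (m + 1) * (2 * ((2 * m + 1) * catalan m)) := by
    calc (m + 1) * ((m + 2) * catalan (m + 1)) = (m + 1) * ((m + 1 + 1) * catalan (m + 1)) := by ring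
      _ = 2 * (2 * m + 1) * ((m + 1) * catalan m) := h3
      _ = _ := by ring
  exact Nat.eq_of_mul_eq_mul_left (by omega) h4

theorem four_pow_le (hM : 1 ≤ M) : 4 ^ M ≤ 2 * M * (M + 1) * catalan M := by
  have h1 := Nat.four_pow_le_two_mul_self_mul_centralBinom M (by omega)
  rw [← succ_mul_catalan_eq_centralBinom] at h1
  calc _ ≤ _ := h1
    _ = _ := by ring

/-- almost all Dyck words have no long runs -/
theorem card_B_ge (hM : 1 ≤ M) (hR : 2 * M ^ 3 * (M + 1) ≤ 2 ^ R) :
    (M - 1) * catalan M ≤ M * (B M R).card := by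
  classical
  have h1 := card_bad_le M R
  set b := (univ.filter (fun w : DW M => ¬ RunOK (bet w.1.toList) M R)).card with hb
  have h2 : (B M R).card + b = catalan M := by
    rw [← card_DW M, ← card_univ, hb]
    unfold B
    have := card_filter_add_card_filter_not (s := (univ : Finset (DW M)))
      (fun w : DW M => RunOK (bet w.1.toList) M R)
    convert this using 2
  have h3 := four_pow_le hM
  have hpos : 0 < 4 * M ^ 2 * (M + 1) := by positivity
  have h4 : b * M * (4 * M ^ 2 * (M + 1)) ≤ catalan M * (4 * M ^ 2 * (M + 1)) := by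
    calc b * M * (4 * M ^ 2 * (M + 1)) = b * (2 * (2 * M ^ 3 * (M + 1))) := by ring
      _ ≤ b * (2 * 2 ^ R) := Nat.mul_le_mul_left _ (Nat.mul_le_mul_left _ hR)
      _ = b * 2 ^ (R + 1) := by ring
      _ ≤ 2 * M * 4 ^ M := h1
      _ ≤ 2 * M * (2 * M * (M + 1) * catalan M) := Nat.mul_le_mul_left _ h3
      _ = _ := by ring
  have h5 : b * M ≤ catalan M := Nat.le_of_mul_le_mul_right h4 hpos
  obtain ⟨m, rfl⟩ : ∃ m, M = m + 1 := ⟨M - 1, by omega⟩
  rw [Nat.add_sub_cancel, ← h2]
  nlinarith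

/-- the lower bound for one length -/
theorem lower_bound (hk : 2 ≤ k) (hM : 2 ≤ M) (hR : 2 * M ^ 3 * (M + 1) ≤ 2 ^ R)
    (hW : (R + 2) * (R + 2) ≤ W) (hT : 2 * (M * (4 * W + 2) ^ 3) ≤ (k - 1) * (k - 1)) :
    (1 / 8 : ℝ) * (4 : ℝ) ^ M / (M * (M + 1)) * (k : ℝ) ^ M *
      Real.exp (((M : ℝ) / 2 + 2) * Real.log (1 - 1 / k)) ≤ ((S k M).ncard : ℝ) := by
  classical
  have e : Fin k := ⟨0, by omega⟩
  have hk2 : (2 : ℝ) ≤ k := by exact_mod_cast hk
  have hM2 : (2 : ℝ) ≤ M := by exact_mod_cast hM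
  set t : ℝ := 1 - 1 / k with ht
  have ht0 : 0 < t := by
    rw [ht, sub_pos, div_lt_one (by linarith)]
    linarith
  have ht1 : t ≤ 1 := by
    rw [ht]
    have : (0 : ℝ) ≤ 1 / k := by positivity
    linarith
  have hlog : Real.log t ≤ 0 := Real.log_nonpos ht0.le ht1
  let y : DW M → ℕ := fun w => ((range M).filter (fun i => ∃ r, r < i ∧
    Peak (toParse (bet w.1.toList) M (balanced_bet w.1 w.2)) r i)).card
  set m' : ℝ := (M : ℝ) / 2 + 2 with hm'
  -- the average number of constraints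
  have hcat : (((M : ℝ) + 1) * catalan M) = 2 * ∑ w ∈ B M R, (y w : ℝ) +
      ((((M : ℝ) + 1) * catalan M) - 2 * ∑ w ∈ B M R, (y w : ℝ)) := by ring
  have hsum : 2 * ∑ w ∈ B M R, (y w : ℝ) ≤ ((M : ℝ) + 1) * catalan M := by
    obtain ⟨m, rfl⟩ : ∃ m, M = m + 1 := ⟨M - 1, by omega⟩
    have h1 : ∑ w ∈ B (m + 1) R, y w ≤ (2 * m + 1) * catalan m := by
      calc ∑ w ∈ B (m + 1) R, y w ≤ ∑ w : DW (m + 1), y w :=
            sum_le_sum_of_subset (subset_univ _)
        _ ≤ ∑ w : DW (m + 1), (peaks (bet w.1.toList) (m + 1)).card := by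
            apply sum_le_sum
            intro w _
            exact card_constraints_le _ (balanced_bet w.1 w.2)
        _ ≤ _ := sum_peaks_le m
    have h2 := catalan_rec m
    have h3 : 2 * ∑ w ∈ B (m + 1) R, y w ≤ (m + 2) * catalan (m + 1) := by
      rw [h2]
      exact Nat.mul_le_mul_left _ h1
    have h4 : ((2 * ∑ w ∈ B (m + 1) R, y w : ℕ) : ℝ) ≤ (((m + 2) * catalan (m + 1) : ℕ) : ℝ) := by
      exact_mod_cast h3
    push_cast at h4 ⊢
    linarith
  have hB : ((M : ℝ) - 1) * catalan M ≤ M * (B M R).card := by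
    have h1 := card_B_ge (M := M) (R := R) (by omega) hR
    have h2 : (((M - 1) * catalan M : ℕ) : ℝ) ≤ ((M * (B M R).card : ℕ) : ℝ) := by exact_mod_cast h1
    rw [Nat.cast_mul, Nat.cast_mul, Nat.cast_sub (by omega)] at h2
    simpa using h2
  have hcat0 : (0 : ℝ) ≤ catalan M := by positivity
  have havg : ∑ w ∈ B M R, (y w : ℝ) ≤ m' * (B M R).card := by
    have h1 : (M : ℝ) * (2 * ∑ w ∈ B M R, (y w : ℝ)) ≤ M * (2 * (m' * (B M R).card)) := by
      calc (M : ℝ) * (2 * ∑ w ∈ B M R, (y w : ℝ)) ≤ M * (((M : ℝ) + 1) * catalan M) :=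
            mul_le_mul_of_nonneg_left hsum (by linarith)
        _ ≤ (M + 4) * (((M : ℝ) - 1) * catalan M) := by nlinarith
        _ ≤ (M + 4) * (M * (B M R).card) := mul_le_mul_of_nonneg_left hB (by linarith)
        _ = _ := by rw [hm']; ring
    have h2 := le_of_mul_le_mul_left h1 (by linarith : (0 : ℝ) < M)
    linarith
  -- the tangent inequality
  have htan : ∀ n : ℕ, Real.exp (m' * Real.log t) * (1 + ((n : ℝ) - m') * Real.log t) ≤ t ^ n := by
    intro n
    have h1 : t ^ n = Real.exp (m' * Real.log t) * Real.exp (((n : ℝ) - m') * Real.log t) := by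
      rw [← Real.exp_add, show m' * Real.log t + ((n : ℝ) - m') * Real.log t = n * Real.log t by ring,
        Real.exp_nat_mul, Real.exp_log ht0]
    rw [h1]
    apply mul_le_mul_of_nonneg_left _ (Real.exp_pos _).le
    have := Real.add_one_le_exp (((n : ℝ) - m') * Real.log t)
    linarith
  have hsumt : ((B M R).card : ℝ) * Real.exp (m' * Real.log t) ≤ ∑ w ∈ B M R, t ^ (y w) := by
    calc ((B M R).card : ℝ) * Real.exp (m' * Real.log t)
        ≤ ∑ w ∈ B M R, Real.exp (m' * Real.log t) * (1 + ((y w : ℝ) - m') * Real.log t) := by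
          rw [← mul_sum, sum_add_distrib, ← sum_mul, sum_sub_distrib, sum_const, sum_const,
            nsmul_eq_mul, nsmul_eq_mul, mul_one, mul_comm]
          apply mul_le_mul_of_nonneg_left _ (Real.exp_pos _).le
          have h1 : 0 ≤ (∑ w ∈ B M R, (y w : ℝ) - (B M R).card * m') * Real.log t := by
            apply mul_nonneg_of_nonpos_of_nonpos _ hlog
            linarith
          linarith
      _ ≤ _ := sum_le_sum fun w _ => htan (y w)
  -- the good words
  have h1 : ((S k M).ncard : ℝ) ≥ ∑ w ∈ B M R, (1 / 2 : ℝ) * ((k : ℝ) ^ M * t ^ (y w)) := by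
    have h2 : (∑ w ∈ B M R, (cnt (fun x : Fin M → Fin k =>
      Good (toParse (bet w.1.toList) M (balanced_bet w.1 w.2)) M W e x) : ℝ)) ≤ (S k M).ncard := by
      exact_mod_cast sum_good_le hW e
    refine le_trans (sum_le_sum fun w _ => ?_) h2
    have h3 := half_good (k := k) (toParse (bet w.1.toList) M (balanced_bet w.1 w.2)) (M := M)
      (W := W) e hk hT
    have h4 := card_OK (k := k) (Peak (toParse (bet w.1.toList) M (balanced_bet w.1 w.2)))
      (peak_uniq _) (by omega) M
    have h5 : (cnt (fun x : Fin M → Fin k =>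
        OK (Peak (toParse (bet w.1.toList) M (balanced_bet w.1 w.2))) M x) : ℝ) ≤
        2 * cnt (fun x : Fin M → Fin k =>
          Good (toParse (bet w.1.toList) M (balanced_bet w.1 w.2)) M W e x) := by
      exact_mod_cast h3
    rw [h4] at h5
    linarith
  have h2 : (1 / 2 : ℝ) * (k : ℝ) ^ M * (((B M R).card : ℝ) * Real.exp (m' * Real.log t)) ≤
      (S k M).ncard := by
    calc _ ≤ (1 / 2 : ℝ) * (k : ℝ) ^ M * ∑ w ∈ B M R, t ^ (y w) :=
          mul_le_mul_of_nonneg_left hsumt (by positivity)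
      _ = ∑ w ∈ B M R, (1 / 2 : ℝ) * ((k : ℝ) ^ M * t ^ (y w)) := by
          rw [mul_sum]
          exact sum_congr rfl fun w _ => by ring
      _ ≤ _ := h1
  have h3 : (1 / 2 : ℝ) * catalan M ≤ (B M R).card := by
    have h4 : (M : ℝ) * ((1 / 2 : ℝ) * catalan M) ≤ M * (B M R).card := by
      calc (M : ℝ) * ((1 / 2 : ℝ) * catalan M) ≤ ((M : ℝ) - 1) * catalan M := by nlinarith
        _ ≤ _ := hB
    exact le_of_mul_le_mul_left h4 (by linarith)
  have h4 : (4 : ℝ) ^ M / (2 * M * (M + 1)) ≤ catalan M := by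
    rw [div_le_iff₀ (by positivity)]
    have h5 := four_pow_le (M := M) (by omega)
    have h6 : ((4 ^ M : ℕ) : ℝ) ≤ ((2 * M * (M + 1) * catalan M : ℕ) : ℝ) := by exact_mod_cast h5
    push_cast at h6
    linarith
  calc (1 / 8 : ℝ) * (4 : ℝ) ^ M / (M * (M + 1)) * (k : ℝ) ^ M * Real.exp (m' * Real.log t)
      = (1 / 2 : ℝ) * (k : ℝ) ^ M * (((1 / 2 : ℝ) * ((4 : ℝ) ^ M / (2 * M * (M + 1)))) *
        Real.exp (m' * Real.log t)) := by
        field_simp
        ring
    _ ≤ (1 / 2 : ℝ) * (k : ℝ) ^ M * (((B M R).card : ℝ) * Real.exp (m' * Real.log t)) := by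
        apply mul_le_mul_of_nonneg_left _ (by positivity)
        apply mul_le_mul_of_nonneg_right _ (Real.exp_pos _).le
        linarith
    _ ≤ _ := h2

end

end Pool.Agent.R123.Shuf
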