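import Mathlib

/-!
# Two typical ways to read a word with a queue are equal

A `Parse` splits the places `0, 1, 2, …` into openings `o 0 < o 1 < …` and closings
`c 0 < c 1 < …` with `o j < c j`. The opening `o j` and the closing `c j` carry the same letter.
-/

set_option autoImplicit false

namespace Pool.Agent.R123.Shuf

/-- a parse -/
structure Parse where
  o : ℕ → ℕ
  c : ℕ → ℕ
  o_mono : StrictMono o
  c_mono : StrictMono c
  lt : ∀ j, o j < c j
  disj : ∀ i j, o i ≠ c j
  cover : ∀ p, (∃ j, p = o j) ∨ (∃ j, p = c j)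

/-- the edges number `a` and `b` have ends at distance at most `W` -/
def Near (P : Parse) (W a b : ℕ) : Prop :=
  ∃ u v, (u = P.o a ∨ u = P.c a) ∧ (v = P.o b ∨ v = P.c b) ∧ u ≤ v + W ∧ v ≤ u + W

/-- no two different coincidences of letters are close to each other -/
def Cond3 {α : Type} (P : Parse) (x : ℕ → α) (M W : ℕ) : Prop :=
  ∀ a b c d, a < M → b < M → c < M → d < M → a ≠ b → c ≠ d → ¬ (a = c ∧ b = d) →
    ¬ (a = d ∧ b = c) → Near P W a b → Near P W c d → Near P W a c → x a = x b → x c = x d → False

/-- a letter is not put to the queue and the same letter deleted at the next step -/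
def Canon {α : Type} (P : Parse) (x : ℕ → α) (M : ℕ) : Prop :=
  ∀ r i, i < M → r < i → P.c r = P.o i + 1 → x i ≠ x r

theorem Parse.next_o (P : Parse) {a q : ℕ} (ha : P.o a = q) (h : ∃ j, q + 1 = P.o j) :
    P.o (a + 1) = q + 1 := by
  obtain ⟨j, hj⟩ := h
  have h1 : a < j := by
    by_contra hcon
    have := P.o_mono.monotone (show j ≤ a by omega)
    omega
  have h2 := P.o_mono.monotone (show a + 1 ≤ j by omega)
  have h3 := P.o_mono (show a < a + 1 by omega)
  omega

theorem no_diff {α : Type} {P P' : Parse} {x x' w : ℕ → α} {M R W N : ℕ}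
    (hW : (R + 2) * (R + 2) ≤ W)
    (hPo : ∀ j, P.o j < N ↔ j < M) (hPc : ∀ j, P.c j < N ↔ j < M)
    (hPo' : ∀ j, P'.o j < N ↔ j < M) (hPc' : ∀ j, P'.c j < N ↔ j < M)
    (hw : ∀ j, j < M → w (P.o j) = x j ∧ w (P.c j) = x j)
    (hw' : ∀ j, j < M → w (P'.o j) = x' j ∧ w (P'.c j) = x' j)
    (hg0 : P.c 0 ≤ R) (hg : ∀ j, j + 1 < M → P.c (j + 1) ≤ P.c j + R + 1)
    (hg' : ∀ j, j + 1 < M → P'.c (j + 1) ≤ P'.c j + R + 1)
    (hcan : Canon P x M) (h3 : Cond3 P x M W)
    {i r p : ℕ} (hp : p < N) (hi : P.o i = p) (hr : P'.c r = p)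
    (ao : ∀ j, P.o j < p → P'.o j = P.o j) (ao' : ∀ j, P'.o j < p → P.o j = P'.o j)
    (ac : ∀ j, P.c j < p → P'.c j = P.c j) (ac' : ∀ j, P'.c j < p → P.c j = P'.c j) : False := by
  have hW1 : 3 * R + 4 ≤ W := by nlinarith
  have hiM : i < M := (hPo i).1 (by omega)
  have hrM : r < M := (hPc' r).1 (by omega)
  have hro : P'.o r < p := by have := P'.lt r; omega
  have hro2 : P.o r = P'.o r := ao' r hro
  have hri : r < i := P.o_mono.lt_iff_lt.1 (by omega)
  have hcr : p < P.c r := by
    have h4 := P.disj i r
    by_contra hcon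
    have h5 : P.c r < p := by omega
    have := ac r h5
    omega
  have hxr : x' r = x r := by
    rw [← (hw' r hrM).1, ← (hw r hrM).1, hro2]
  have hxi : x i = x r := by
    rw [← hxr, ← (hw i hiM).1, ← (hw' r hrM).2, hi, hr]
  -- closings before `r`
  have hbefore : ∀ j, j < r → P.c j < p := by
    intro j hj
    have h4 : P'.c j < p := by
      rw [← hr]; exact P'.c_mono hj
    have := ac' j h4
    omega
  have hcr2 : P.c r ≤ p + R := by
    rcases Nat.eq_zero_or_pos r with h0 | h0
    · rw [h0]; omega
    · obtain ⟨r', rfl⟩ : ∃ r', r = r' + 1 := ⟨r - 1, by omega⟩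
      have h4 := hbefore r' (by omega)
      have h5 := hg r' hrM
      omega
  have hcr3 : p + 2 ≤ P.c r := by
    by_contra hcon
    exact hcan r i hiM hri (by omega) hxi
  have hcrN : P.c r < N := (hPc r).2 hrM
  -- the number of a place
  have idx : ∀ q, q < N → ∃ a, a < M ∧ x a = w q ∧ (q = P.o a ∨ q = P.c a) := by
    intro q hq
    rcases P.cover q with ⟨a, ha⟩ | ⟨a, ha⟩
    · have h4 : a < M := (hPo a).1 (by omega)
      exact ⟨a, h4, by rw [ha]; exact (hw a h4).1.symm, Or.inl ha⟩
    · have h4 : a < M := (hPc a).1 (by omega)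
      exact ⟨a, h4, by rw [ha]; exact (hw a h4).2.symm, Or.inr ha⟩
  have hoeq : ∀ j, j < i → P'.o j = P.o j := by
    intro j hj
    apply ao
    rw [← hi]; exact P.o_mono hj
  have hxeq : ∀ j, j < i → x' j = x j := by
    intro j hj
    rw [← (hw' j (by omega)).1, ← (hw j (by omega)).1, hoeq j hj]
  have hNir : Near P W i r := ⟨P.o i, P.c r, Or.inl rfl, Or.inr rfl, by omega, by omega⟩
  -- two successive differences are impossible
  have hB : ∀ j, r ≤ j → j + 1 < i → P.c j ≤ P'.c j + R → P'.c j ≤ P.c j + R →
      P.c j ≠ P'.c j → P.c (j + 1) = P'.c (j + 1) := by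
    intro j hrj hji hd1 hd2 hne
    by_contra hne2
    obtain ⟨a, haM, hxa, ha⟩ := idx (P'.c j) ((hPc' j).2 (by omega))
    obtain ⟨b, hbM, hxb, hb⟩ := idx (P'.c (j + 1)) ((hPc' (j + 1)).2 (by omega))
    rw [(hw' j (by omega)).2, hxeq j (by omega)] at hxa
    rw [(hw' (j + 1) (by omega)).2, hxeq (j + 1) hji] at hxb
    have g1 := hg j (by omega)
    have g1' := hg' j (by omega)
    have m1 := P.c_mono (show j < j + 1 by omega)
    have m1' := P'.c_mono (show j < j + 1 by omega)
    have l0 := P'.lt j
    have l1 := P'.lt (j + 1)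
    have e0 := hoeq j (by omega)
    have e1 := hoeq (j + 1) hji
    have mo := P.o_mono (show j < j + 1 by omega)
    have dj := P'.disj (j + 1) j
    have ja : j ≠ a := by
      rintro rfl
      rcases ha with ha | ha <;> omega
    have jb : j + 1 ≠ b := by
      rintro rfl
      rcases hb with hb | hb <;> omega
    refine h3 j a (j + 1) b (by omega) haM (by omega) hbM ja jb (by omega) ?_
      ⟨P.c j, P'.c j, Or.inr rfl, ha, by omega, by omega⟩
      ⟨P.c (j + 1), P'.c (j + 1), Or.inr rfl, hb, by omega, by omega⟩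
      ⟨P.c j, P.c (j + 1), Or.inr rfl, Or.inr rfl, by omega, by omega⟩ hxa.symm hxb.symm
    rintro ⟨h4, h5⟩
    subst h4
    subst h5
    rcases ha with ha | ha <;> rcases hb with hb | hb <;> omega
  have hA : ∀ j, r ≤ j → j < i → P.c j ≤ P'.c j + R ∧ P'.c j ≤ P.c j + R := by
    intro j hj
    induction j, hj using Nat.le_induction with
    | base => intro _; omega
    | succ j hj ih =>
      intro hji
      have h4 := ih (by omega)
      by_cases hne : P.c j = P'.c j
      · have g1 := hg j (by omega)
        have g1' := hg' j (by omega)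
        have m1 := P.c_mono (show j < j + 1 by omega)
        have m1' := P'.c_mono (show j < j + 1 by omega)
        omega
      · have := hB j hj hji h4.1 h4.2 hne
        omega
  -- the places after `p` are openings of `P'`
  have hD : ∀ q, p < q → q ≤ P.c r → ∃ j, q = P'.o j := by
    intro q hq1 hq2
    rcases P'.cover q with h4 | ⟨j, hj⟩
    · exact h4
    exfalso
    have hrj : r < j := by
      by_contra hcon
      have := P'.c_mono.monotone (show j ≤ r by omega)
      omega
    have h5 : P'.c (r + 1) ≤ q := by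
      rw [hj]; exact P'.c_mono.monotone (by omega)
    rcases Nat.lt_or_ge (r + 1) i with h6 | h6
    · have h7 := hB r le_rfl h6 (by omega) (by omega) (by omega)
      have m1 := P.c_mono (show r < r + 1 by omega)
      omega
    · have hir : i = r + 1 := by omega
      subst hir
      have hoi : p < P'.o (r + 1) := by
        by_contra hcon
        have h8 := P'.disj (r + 1) r
        have h9 := ao' (r + 1) (by omega)
        omega
      have hoi2 : P'.o (r + 1) = p + 1 := by
        rcases P'.cover (p + 1) with ⟨j', hj'⟩ | ⟨j', hj'⟩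
        · have h8 : r + 1 ≤ j' := by
            by_contra hcon
            have h9 := hoeq j' (by omega)
            have h10 := P.o_mono (show j' < r + 1 by omega)
            omega
          have := P'.o_mono.monotone h8
          omega
        · exfalso
          have h8 : r + 1 ≤ j' := by
            by_contra hcon
            have := P'.c_mono.monotone (show j' ≤ r by omega)
            omega
          have h9 := P'.c_mono.monotone h8
          have h10 := P'.lt (r + 1)
          omega
      have hoi3 : P.o (r + 1 + 1) = p + 1 := by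
        apply P.next_o hi
        rcases P.cover (p + 1) with h8 | ⟨j', hj'⟩
        · exact h8
        · exfalso
          have h9 : j' < r := P.c_mono.lt_iff_lt.1 (by omega)
          have := hbefore j' h9
          omega
      have hM2 : r + 1 + 1 < M := (hPo _).1 (by omega)
      have hx1 : x' (r + 1) = x (r + 1 + 1) := by
        rw [← (hw' _ hiM).1, ← (hw _ hM2).1, hoi2, hoi3]
      obtain ⟨a, haM, hxa, ha⟩ := idx (P'.c (r + 1)) ((hPc' _).2 hiM)
      rw [(hw' _ hiM).2, hx1] at hxa
      have l1 := P'.lt (r + 1)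
      have m2 := P.c_mono (show r < r + 1 + 1 by omega)
      have ja : r + 1 + 1 ≠ a := by
        rintro rfl
        rcases ha with ha | ha <;> omega
      exact h3 (r + 1) r (r + 1 + 1) a hiM hrM hM2 haM (by omega) ja (by omega) (by omega) hNir
        ⟨P.o (r + 1 + 1), P'.c (r + 1), Or.inl rfl, ha, by omega, by omega⟩
        ⟨P.o (r + 1), P.o (r + 1 + 1), Or.inl rfl, Or.inl rfl, by omega, by omega⟩ hxi hxa.symm
  have hE : ∀ s, p + s < P.c r → P.o (i + s) = p + s := by
    intro s
    induction s with
    | zero => intro _; simpa using hi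
    | succ s ih =>
      intro hs
      have h4 := ih (by omega)
      apply P.next_o h4
      rcases P.cover (p + s + 1) with h8 | ⟨j', hj'⟩
      · exact h8
      · exfalso
        have h9 : j' < r := P.c_mono.lt_iff_lt.1 (by omega)
        have := hbefore j' h9
        omega
  have hE' : ∀ s, p + 1 + s ≤ P.c r → P'.o (i + s) = p + 1 + s := by
    intro s
    induction s with
    | zero =>
      intro _
      obtain ⟨j, hj⟩ := hD (p + 1) (by omega) (by omega)
      have h8 : i ≤ j := by
        by_contra hcon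
        have h9 := hoeq j (by omega)
        have h10 := P.o_mono (show j < i by omega)
        omega
      have h9 := P'.o_mono.monotone h8
      have h10 : p < P'.o i := by
        by_contra hcon
        have h8 := P'.disj i r
        have h9 := ao' i (by omega)
        omega
      rw [add_zero]
      omega
    | succ s ih =>
      intro hs
      have h4 := ih (by omega)
      apply P'.next_o h4
      exact hD _ (by omega) (by omega)
  obtain ⟨J0, hJ⟩ : ∃ J0, P.c r = p + 1 + (J0 + 1) := ⟨P.c r - p - 2, by omega⟩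
  have hxs : ∀ s, s ≤ J0 → x' (i + s) = x (i + 1 + s) := by
    intro s hs
    have h4 := hE' s (by omega)
    have h5 := hE (1 + s) (by omega)
    rw [← add_assoc] at h5
    rw [← (hw' _ ((hPo' _).1 (by omega))).1, ← (hw _ ((hPo _).1 (by omega))).1, h4, h5]
    congr 1
    omega
  have hxJ : x' (i + (J0 + 1)) = x i := by
    have h4 := hE' (J0 + 1) (by omega)
    rw [← (hw' _ ((hPo' _).1 (by omega))).1, h4, ← hJ, (hw r hrM).2, hxi]
  have hJR : J0 + 2 ≤ R := by omega
  have hF : ∀ s, s ≤ J0 → P'.c (i + s) = P.c (i + 1 + s) ∧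
      P.c (i + 1 + s) ≤ P.c i + (s + 1) * (R + 1) := by
    intro s
    induction s with
    | zero =>
      intro _
      obtain ⟨i0, rfl⟩ : ∃ i0, i = i0 + 1 := ⟨i - 1, by omega⟩
      have h4 := hA i0 (by omega) (by omega)
      have h5 := hE 1 (by omega)
      have h5' := hE' 0 (by omega)
      rw [add_zero, add_zero] at h5'
      have hM2 : i0 + 1 + 1 < M := (hPo _).1 (by omega)
      have g1 := hg i0 (by omega)
      have g1' := hg' i0 (by omega)
      have g2 := hg (i0 + 1) (by omega)
      have m1 := P.c_mono (show i0 < i0 + 1 by omega)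
      have m1' := P'.c_mono (show i0 < i0 + 1 by omega)
      have m2 := P.c_mono (show i0 + 1 < i0 + 1 + 1 by omega)
      rw [add_zero, add_zero, zero_add, one_mul]
      refine ⟨?_, by omega⟩
      by_contra hne
      have hx1 := hxs 0 (by omega)
      rw [add_zero, add_zero] at hx1
      obtain ⟨a, haM, hxa, ha⟩ := idx (P'.c (i0 + 1)) ((hPc' _).2 hiM)
      rw [(hw' _ hiM).2, hx1] at hxa
      have l1 := P'.lt (i0 + 1)
      have ja : i0 + 1 + 1 ≠ a := by
        rintro rfl
        rcases ha with ha | ha <;> omega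
      exact h3 (i0 + 1) r (i0 + 1 + 1) a hiM hrM hM2 haM (by omega) ja (by omega) (by omega) hNir
        ⟨P.c (i0 + 1 + 1), P'.c (i0 + 1), Or.inr rfl, ha, by omega, by omega⟩
        ⟨P.c (i0 + 1), P.c (i0 + 1 + 1), Or.inr rfl, Or.inr rfl, by omega, by omega⟩ hxi hxa.symm
    | succ s ih =>
      intro hs
      obtain ⟨h4, h4'⟩ := ih (by omega)
      have h5 := hE (1 + (s + 1)) (by omega)
      have h5' := hE' (s + 1) (by omega)
      rw [← add_assoc] at h5
      have hM2 : i + 1 + (s + 1) < M := (hPo _).1 (by omega)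
      have g2 := hg (i + 1 + s) (by omega)
      have g2' := hg' (i + s) (by omega)
      have m2 := P.c_mono (show i + 1 + s < i + 1 + s + 1 by omega)
      have m2' := P'.c_mono (show i + s < i + s + 1 by omega)
      have hmul : (s + 1 + 1) * (R + 1) = (s + 1) * (R + 1) + (R + 1) := by ring
      have hbd : (s + 1 + 1) * (R + 1) ≤ R * (R + 1) := Nat.mul_le_mul_right _ (by omega)
      have hRW : R * (R + 1) ≤ W := by nlinarith
      rw [add_assoc] at g2 m2 g2' m2'
      refine ⟨?_, by omega⟩
      by_contra hne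
      have hx1 := hxs (s + 1) hs
      obtain ⟨a, haM, hxa, ha⟩ := idx (P'.c (i + (s + 1))) ((hPc' _).2 (by omega))
      rw [(hw' _ (by omega)).2, hx1] at hxa
      have l1 := P'.lt (i + (s + 1))
      have ja : i + 1 + (s + 1) ≠ a := by
        rintro rfl
        rcases ha with ha | ha <;> omega
      have m3 := P.c_mono (show i < i + 1 + (s + 1) by omega)
      exact h3 i r (i + 1 + (s + 1)) a hiM hrM hM2 haM (by omega) ja (by omega) (by omega) hNir
        ⟨P.c (i + 1 + (s + 1)), P'.c (i + (s + 1)), Or.inr rfl, ha, by omega, by omega⟩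
        ⟨P.c i, P.c (i + 1 + (s + 1)), Or.inr rfl, Or.inr rfl, by omega, by omega⟩ hxi hxa.symm
  -- the letter at the place `P.c r` closes too late
  obtain ⟨h4, h4'⟩ := hF J0 le_rfl
  have h5' := hE' (J0 + 1) (by omega)
  have hM3 : i + (J0 + 1) < M := (hPo' _).1 (by omega)
  have g2' := hg' (i + J0) (by omega)
  have m2' := P'.c_mono (show i + J0 < i + J0 + 1 by omega)
  have hmul : (J0 + 1 + 1) * (R + 1) = (J0 + 1) * (R + 1) + (R + 1) := by ring
  have hbd : (J0 + 1 + 1) * (R + 1) ≤ R * (R + 1) := Nat.mul_le_mul_right _ (by omega)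
  have hRW : R * (R + 1) ≤ W := by nlinarith
  rw [add_assoc] at g2' m2'
  obtain ⟨a, haM, hxa, ha⟩ := idx (P'.c (i + (J0 + 1))) ((hPc' _).2 hM3)
  rw [(hw' _ hM3).2, hxJ] at hxa
  have m3 := P.c_mono (show i < i + 1 + J0 by omega)
  have m4 := P.c_mono hri
  have l1 := P.lt i
  have l2 := P.lt r
  have ja : i ≠ a := by
    rintro rfl
    rcases ha with ha | ha <;> omega
  have ra : r ≠ a := by
    rintro rfl
    rcases ha with ha | ha <;> omega
  exact h3 i r i a hiM hrM hiM haM (by omega) ja (by omega) (by omega) hNir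
    ⟨P.c i, P'.c (i + (J0 + 1)), Or.inr rfl, ha, by omega, by omega⟩
    ⟨P.c i, P.c i, Or.inr rfl, Or.inr rfl, by omega, by omega⟩ hxi hxa.symm

end Pool.Agent.R123.Shuf
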